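import Mathlib

/-!
# Path covers and the number `f_k(G)`: definitions
-/

namespace Q299.PC

open scoped Classical

variable {V : Type*}

/-- `L` is a path cover of `H`: a list of nonempty lists of vertices, each of them a path of `H`
(consecutive vertices are adjacent), pairwise vertex-disjoint and without repetitions, which
together contain every vertex. A single vertex counts as a path. -/
def IsPathCover (H : SimpleGraph V) (L : List (List V)) : Prop :=
  (∀ l ∈ L, l ≠ [] ∧ l.IsChain H.Adj) ∧ L.flatten.Nodup ∧ ∀ v, v ∈ L.flatten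

/-- The path cover number `μ(H)`: the least number of paths in a path cover. -/
noncomputable def pathCoverNum (H : SimpleGraph V) : ℕ :=
  sInf {m | ∃ L : List (List V), IsPathCover H L ∧ L.length = m}

/-- `f_k(G) = min {|F| : F ⊆ E(G), μ(G - F) = k}` (it is `⊤` if there is no such `F`). -/
noncomputable def fNum (k : ℕ) (G : SimpleGraph V) : ℕ∞ :=
  ⨅ (F : Finset (Sym2 V)) (_ : (F : Set (Sym2 V)) ⊆ G.edgeSet ∧
    pathCoverNum (G.deleteEdges (F : Set (Sym2 V))) = k), (F.card : ℕ∞)

/-- The least number of edges of `G` meeting a set of exactly `s` vertices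
(it is `⊤` if there is no such set). -/
noncomputable def minIncident (s : ℕ) (G : SimpleGraph V) : ℕ∞ :=
  ⨅ (S : Finset V) (_ : S.card = s), {e ∈ G.edgeSet | ∃ v ∈ S, v ∈ e}.encard

/-- Probability of a property of the binomial random graph `G(n,p)`. -/
noncomputable def gnpProb (n : ℕ) (p : ℝ) (A : SimpleGraph (Fin n) → Prop) : ℝ :=
  ∑ G : SimpleGraph (Fin n), if A G then
    p ^ G.edgeSet.ncard * (1 - p) ^ (n.choose 2 - G.edgeSet.ncard) else 0

end Q299.PC
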