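import Mathlib

set_option linter.unnecessarySeqFocus false
set_option linter.unusedSectionVars false

/-!
# A simple sufficient condition for Hamiltonicity

If every vertex has degree at least `2m+2` and any two disjoint sets of at least `m` vertices are
joined by an edge, then there is a Hamilton cycle (one double rotation of a longest path).
-/

namespace Q299.PC

open Finset

variable {V : Type*}

/-- `p 0, ..., p (N-1)` is a path of `H`. -/
structure IsPth (H : SimpleGraph V) (N : ℕ) (p : ℕ → V) : Prop where
  inj : ∀ i j, i < N → j < N → p i = p j → i = j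
  adj : ∀ i, i + 1 < N → H.Adj (p i) (p (i + 1))

/-- reindexing by a map that is injective on `[0,N)`. -/
lemma image_reindex [DecidableEq V] {N : ℕ} {p : ℕ → V} (π : ℕ → ℕ)
    (hπ : ∀ i, i < N → π i < N) (hinj : ∀ i j, i < N → j < N → π i = π j → i = j) :
    (range N).image (fun i => p (π i)) = (range N).image p := by
  have h1 : (range N).image π = range N := by
    apply Finset.eq_of_subset_of_card_le
    · intro x hx
      obtain ⟨i, hi, rfl⟩ := mem_image.1 hx
      exact mem_range.2 (hπ i (mem_range.1 hi))
    · rw [card_image_of_injOn]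
      intro i hi j hj hij
      exact hinj i j (by simpa using hi) (by simpa using hj) hij
  conv_rhs => rw [← h1, image_image]
  rfl

lemma case_one [DecidableEq V] {H : SimpleGraph V} {N : ℕ} {p : ℕ → V} (hp : IsPth H N p)
    {i j : ℕ} (hj : 1 ≤ j) (hji : j ≤ i) (hi : i + 1 < N)
    (h1 : H.Adj (p 0) (p j)) (h2 : H.Adj (p (N - 1)) (p i)) (h3 : H.Adj (p (j - 1)) (p (i + 1))) :
    ∃ q : ℕ → V, IsPth H N q ∧ (range N).image q = (range N).image p ∧
      H.Adj (q (N - 1)) (q 0) := by
  set π : ℕ → ℕ := fun t => if t < j then j - 1 - t else if t ≤ i then t else N - 1 - (t - i - 1)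
    with hπ
  have hlt : ∀ t, t < N → π t < N := by
    intro t ht
    simp only [hπ]
    split_ifs <;> omega
  have hinj : ∀ s t, s < N → t < N → π s = π t → s = t := by
    intro s t hs ht
    simp only [hπ]
    split_ifs <;> omega
  refine ⟨fun t => p (π t), ⟨?_, ?_⟩, image_reindex π hlt hinj, ?_⟩
  · intro s t hs ht hst
    exact hinj s t hs ht (hp.inj _ _ (hlt s hs) (hlt t ht) hst)
  · intro t ht
    by_cases c1 : t + 1 < j
    · have e1 : π t = (j - 1 - (t + 1)) + 1 := by simp only [hπ]; split_ifs <;> omega
      have e2 : π (t + 1) = j - 1 - (t + 1) := by simp only [hπ]; split_ifs <;> omega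
      show H.Adj (p (π t)) (p (π (t + 1)))
      rw [e1, e2]
      exact (hp.adj _ (by omega)).symm
    · by_cases c2 : t + 1 = j
      · have e1 : π t = 0 := by simp only [hπ]; split_ifs <;> omega
        have e2 : π (t + 1) = j := by simp only [hπ]; split_ifs <;> omega
        show H.Adj (p (π t)) (p (π (t + 1)))
        rw [e1, e2]; exact h1
      · by_cases c3 : t + 1 ≤ i
        · have e1 : π t = t := by simp only [hπ]; split_ifs <;> omega
          have e2 : π (t + 1) = t + 1 := by simp only [hπ]; split_ifs <;> omega
          show H.Adj (p (π t)) (p (π (t + 1)))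
          rw [e1, e2]; exact hp.adj _ ht
        · by_cases c4 : t = i
          · have e1 : π t = i := by simp only [hπ]; split_ifs <;> omega
            have e2 : π (t + 1) = N - 1 := by simp only [hπ]; split_ifs <;> omega
            show H.Adj (p (π t)) (p (π (t + 1)))
            rw [e1, e2]; exact h2.symm
          · have e1 : π t = (N - 1 - (t - i)) + 1 := by simp only [hπ]; split_ifs <;> omega
            have e2 : π (t + 1) = N - 1 - (t - i) := by simp only [hπ]; split_ifs <;> omega
            show H.Adj (p (π t)) (p (π (t + 1)))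
            rw [e1, e2]; exact (hp.adj _ (by omega)).symm
  · have e1 : π (N - 1) = i + 1 := by simp only [hπ]; split_ifs <;> omega
    have e2 : π 0 = j - 1 := by simp only [hπ]; split_ifs <;> omega
    show H.Adj (p (π (N - 1))) (p (π 0))
    rw [e1, e2]; exact h3.symm

lemma case_two [DecidableEq V] {H : SimpleGraph V} {N : ℕ} {p : ℕ → V} (hp : IsPth H N p)
    {i j : ℕ} (hij : i < j) (hj : j + 1 < N)
    (h1 : H.Adj (p 0) (p j)) (h2 : H.Adj (p (N - 1)) (p i)) (h3 : H.Adj (p (j + 1)) (p (i + 1))) :
    ∃ q : ℕ → V, IsPth H N q ∧ (range N).image q = (range N).image p ∧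
      H.Adj (q (N - 1)) (q 0) := by
  -- Z = (j+1 .. N-1), X reversed = (i .. 0), Y reversed = (j .. i+1)
  set π : ℕ → ℕ := fun t => if t < N - 1 - j then t + j + 1
    else if t ≤ N - 1 - j + i then i - (t - (N - 1 - j)) else N - 1 - t + i + 1
    with hπ
  have hlt : ∀ t, t < N → π t < N := by
    intro t ht
    simp only [hπ]
    split_ifs <;> omega
  have hinj : ∀ s t, s < N → t < N → π s = π t → s = t := by
    intro s t hs ht
    simp only [hπ]
    split_ifs <;> omega
  refine ⟨fun t => p (π t), ⟨?_, ?_⟩, image_reindex π hlt hinj, ?_⟩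
  · intro s t hs ht hst
    exact hinj s t hs ht (hp.inj _ _ (hlt s hs) (hlt t ht) hst)
  · intro t ht
    show H.Adj (p (π t)) (p (π (t + 1)))
    by_cases c1 : t + 1 < N - 1 - j
    · have e1 : π t = t + j + 1 := by simp only [hπ]; split_ifs <;> omega
      have e2 : π (t + 1) = (t + j + 1) + 1 := by simp only [hπ]; split_ifs <;> omega
      rw [e1, e2]
      exact (hp.adj _ (by omega))
    · by_cases c2 : t + 1 = N - 1 - j
      · have e1 : π t = N - 1 := by simp only [hπ]; split_ifs <;> omega
        have e2 : π (t + 1) = i := by simp only [hπ]; split_ifs <;> omega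
        rw [e1, e2]; exact h2
      · by_cases c3 : t + 1 ≤ N - 1 - j + i
        · have e1 : π t = (i - (t + 1 - (N - 1 - j))) + 1 := by simp only [hπ]; split_ifs <;> omega
          have e2 : π (t + 1) = i - (t + 1 - (N - 1 - j)) := by simp only [hπ]; split_ifs <;> omega
          rw [e1, e2]; exact (hp.adj _ (by omega)).symm
        · by_cases c4 : t = N - 1 - j + i
          · have e1 : π t = 0 := by simp only [hπ]; split_ifs <;> omega
            have e2 : π (t + 1) = j := by simp only [hπ]; split_ifs <;> omega
            rw [e1, e2]; exact h1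
          · have e1 : π t = (N - 1 - (t + 1) + i + 1) + 1 := by simp only [hπ]; split_ifs <;> omega
            have e2 : π (t + 1) = N - 1 - (t + 1) + i + 1 := by simp only [hπ]; split_ifs <;> omega
            rw [e1, e2]; exact (hp.adj _ (by omega)).symm
  · have e1 : π (N - 1) = i + 1 := by simp only [hπ]; split_ifs <;> omega
    have e2 : π 0 = j + 1 := by simp only [hπ]; split_ifs <;> omega
    show H.Adj (p (π (N - 1))) (p (π 0))
    rw [e1, e2]; exact h3.symm

/-- rotating a cycle -/
lemma rotate {H : SimpleGraph V} {N : ℕ} {q : ℕ → V} (hq : IsPth H N q)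
    (hc : H.Adj (q (N - 1)) (q 0)) {t : ℕ} (ht : t < N) :
    IsPth H N (fun s => q ((t + s) % N)) := by
  constructor
  · intro s s' hs hs' h
    have h1 := hq.inj _ _ (Nat.mod_lt _ (by omega)) (Nat.mod_lt _ (by omega)) h
    have h2 : (t + s) % N = if t + s < N then t + s else t + s - N := by
      split_ifs with h
      · exact Nat.mod_eq_of_lt h
      · rw [Nat.mod_eq_sub_mod (by omega), Nat.mod_eq_of_lt (by omega)]
    have h3 : (t + s') % N = if t + s' < N then t + s' else t + s' - N := by
      split_ifs with h
      · exact Nat.mod_eq_of_lt h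
      · rw [Nat.mod_eq_sub_mod (by omega), Nat.mod_eq_of_lt (by omega)]
    rw [h2, h3] at h1
    split_ifs at h1 <;> omega
  · intro s hs
    show H.Adj (q ((t + s) % N)) (q ((t + (s + 1)) % N))
    by_cases c1 : t + s + 1 < N
    · rw [Nat.mod_eq_of_lt (by omega), Nat.mod_eq_of_lt (by omega)]
      exact hq.adj _ c1
    · by_cases c2 : t + s + 1 = N
      · rw [Nat.mod_eq_of_lt (by omega)]
        have : (t + (s + 1)) % N = 0 := by
          rw [← add_assoc, c2, Nat.mod_self]
        rw [this]
        have : t + s = N - 1 := by omega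
        rw [this]; exact hc
      · rw [Nat.mod_eq_sub_mod (by omega), Nat.mod_eq_of_lt (by omega),
          Nat.mod_eq_sub_mod (a := t + (s + 1)) (by omega), Nat.mod_eq_of_lt (by omega)]
        have : t + (s + 1) - N = (t + s - N) + 1 := by omega
        rw [this]
        exact hq.adj _ (by omega)

/-- prepending a vertex -/
lemma prepend {H : SimpleGraph V} {N : ℕ} {p : ℕ → V} (hp : IsPth H N p) {x : V}
    (hx : ∀ i, i < N → p i ≠ x) (hadj : H.Adj x (p 0)) :
    IsPth H (N + 1) (fun s => if s = 0 then x else p (s - 1)) := by
  constructor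
  · intro s s' hs hs' h
    try simp only at h
    split_ifs at h with h1 h2 h2
    · omega
    · exact absurd h.symm (hx _ (by omega))
    · exact absurd h (hx _ (by omega))
    · have := hp.inj _ _ (by omega) (by omega) h
      omega
  · intro s hs
    show H.Adj (if s = 0 then x else p (s - 1)) (if s + 1 = 0 then x else p (s + 1 - 1))
    rw [if_neg (by omega : ¬ s + 1 = 0)]
    by_cases h : s = 0
    · subst h; simpa using hadj
    · rw [if_neg h]
      have := hp.adj (s - 1) (by omega)
      have e : s - 1 + 1 = s + 1 - 1 := by omega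
      rw [e] at this
      exact this

/-- reversing a path -/
lemma reverse {H : SimpleGraph V} {N : ℕ} {p : ℕ → V} (hp : IsPth H N p) :
    IsPth H N (fun s => p (N - 1 - s)) := by
  constructor
  · intro s s' hs hs' h
    have := hp.inj _ _ (by omega) (by omega) h
    omega
  · intro s hs
    show H.Adj (p (N - 1 - s)) (p (N - 1 - (s + 1)))
    have := hp.adj (N - 1 - (s + 1)) (by omega)
    have e : N - 1 - (s + 1) + 1 = N - 1 - s := by omega
    rw [e] at this
    exact this.symm

variable [Fintype V] [DecidableEq V]

lemma IsPth.le_card {H : SimpleGraph V} {N : ℕ} {p : ℕ → V} (hp : IsPth H N p) :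
    N ≤ Fintype.card V := by
  have : ((range N).image p).card = N := by
    rw [card_image_of_injOn, card_range]
    intro i hi j hj hij
    exact hp.inj i j (by simpa using hi) (by simpa using hj) hij
  rw [← this]
  exact card_le_univ _

open Classical in
/-- **Hamilton cycle lemma.** -/
theorem exists_cycle (H : SimpleGraph V) (m : ℕ)
    (hD : ∀ v, 2 * m + 2 ≤ (univ.filter (fun w => H.Adj v w)).card)
    (hP : ∀ A B : Finset V, Disjoint A B → m ≤ A.card → m ≤ B.card →
      ∃ a ∈ A, ∃ b ∈ B, H.Adj a b) [Nonempty V] :
    ∃ (q : ℕ → V), IsPth H (Fintype.card V) q ∧ (range (Fintype.card V)).image q = univ ∧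
      H.Adj (q (Fintype.card V - 1)) (q 0) := by
  -- longest path
  have hbd : ∃ N, (∃ p, IsPth H N p) ∧ ∀ M, (∃ p, IsPth H M p) → M ≤ N := by
    have hex : ∃ N, ∃ p, IsPth H N p :=
      ⟨0, fun _ => Classical.arbitrary V, ⟨by intro i j hi; omega, by intro i hi; omega⟩⟩
    have hfin : ∀ N, (∃ p, IsPth H N p) → N ≤ Fintype.card V := fun N ⟨p, hp⟩ => hp.le_card
    exact ⟨Nat.findGreatest (fun N => ∃ p, IsPth H N p) (Fintype.card V),
      Nat.findGreatest_spec (P := fun N => ∃ p, IsPth H N p) (m := 0) (Nat.zero_le _)
        ⟨fun _ => Classical.arbitrary V, ⟨by intro i j hi; omega, by intro i hi; omega⟩⟩,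
      fun M hM => Nat.le_findGreatest (hfin M hM) hM⟩
  obtain ⟨N, ⟨p, hp⟩, hmax⟩ := hbd
  have hN1 : 1 ≤ N := by
    apply hmax
    exact ⟨fun _ => Classical.arbitrary V, ⟨by intro i j hi hj _; omega, by intro i hi; omega⟩⟩
  -- neighbours of the ends lie on the path
  have hend : ∀ (r : ℕ → V), IsPth H N r → ∀ x, H.Adj (r 0) x → ∃ i, i < N ∧ r i = x := by
    intro r hr x hx
    by_contra hcon
    push Not at hcon
    have := hmax (N + 1) ⟨_, prepend hr (fun i hi => hcon i hi) hx.symm⟩
    omega
  have h0 := hend p hp
  have hl : ∀ x, H.Adj (p (N - 1)) x → ∃ i, i < N ∧ p i = x := by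
    intro x hx
    obtain ⟨i, hi, h⟩ := hend _ (reverse hp) x (by simpa using hx)
    exact ⟨N - 1 - i, by omega, h⟩
  -- index sets
  set J := (range N).filter (fun j => H.Adj (p 0) (p j)) with hJ
  set I := (range N).filter (fun j => H.Adj (p (N - 1)) (p j)) with hI
  have hJc : 2 * m + 2 ≤ J.card := by
    refine (hD (p 0)).trans ?_
    refine (card_le_card ?_).trans (card_image_le (f := p))
    intro x hx
    obtain ⟨i, hi, rfl⟩ := h0 x (by simpa using hx)
    exact mem_image.2 ⟨i, by simp [hJ, hi]; simpa using hx, rfl⟩
  have hIc : 2 * m + 2 ≤ I.card := by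
    refine (hD (p (N - 1))).trans ?_
    refine (card_le_card ?_).trans (card_image_le (f := p))
    intro x hx
    obtain ⟨i, hi, rfl⟩ := hl x (by simpa using hx)
    exact mem_image.2 ⟨i, by simp [hI, hi]; simpa using hx, rfl⟩
  have hJmem : ∀ j ∈ J, 1 ≤ j ∧ j < N ∧ H.Adj (p 0) (p j) := by
    intro j hj
    simp only [hJ, mem_filter, mem_range] at hj
    refine ⟨?_, hj.1, hj.2⟩
    rcases Nat.eq_zero_or_pos j with rfl | h
    · exact absurd hj.2 (H.irrefl)
    · exact h
  have hImem : ∀ i ∈ I, i + 1 < N ∧ H.Adj (p (N - 1)) (p i) := by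
    intro i hi
    simp only [hI, mem_filter, mem_range] at hi
    refine ⟨?_, hi.2⟩
    by_contra hcon
    have : i = N - 1 := by omega
    rw [this] at hi
    exact absurd hi.2 (H.irrefl)
  -- threshold
  have hext : ∃ t, m + 1 ≤ (J.filter (fun j => j ≤ t)).card := by
    refine ⟨N, ?_⟩
    rw [filter_true_of_mem (fun j hj => (hJmem j hj).2.1.le)]
    omega
  obtain ⟨t, ht1, ht2⟩ : ∃ t, m + 1 ≤ (J.filter (fun j => j ≤ t)).card ∧
      m + 2 ≤ (J.filter (fun j => t ≤ j)).card := by
    refine ⟨Nat.find hext, Nat.find_spec hext, ?_⟩
    have hsplit : (J.filter (fun j => Nat.find hext ≤ j)).card +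
        (J.filter (fun j => ¬ Nat.find hext ≤ j)).card = J.card :=
      card_filter_add_card_filter_not _
    have hle : (J.filter (fun j => ¬ Nat.find hext ≤ j)).card ≤ m := by
      rcases Nat.eq_zero_or_pos (Nat.find hext) with h | h
      · rw [h]; simp
      · have := Nat.find_min hext (m := Nat.find hext - 1) (by omega)
        have h2 : (J.filter (fun j => ¬ Nat.find hext ≤ j)) =
            (J.filter (fun j => j ≤ Nat.find hext - 1)) := by
          apply filter_congr
          intro j _
          omega
        rw [h2]
        omega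
    omega
  -- a cycle on the vertex set of the path
  have hcyc : ∃ q : ℕ → V, IsPth H N q ∧ (range N).image q = (range N).image p ∧
      H.Adj (q (N - 1)) (q 0) := by
    have hinjOn : ∀ (S : Finset ℕ) (f : ℕ → ℕ), (∀ s ∈ S, f s < N) →
        (∀ s ∈ S, ∀ s' ∈ S, f s = f s' → s = s') → (S.image (fun s => p (f s))).card = S.card := by
      intro S f hf hf2
      apply card_image_of_injOn
      intro s hs s' hs' h
      exact hf2 s hs s' hs' (hp.inj _ _ (hf s hs) (hf s' hs') h)
    by_cases hcase : m + 1 ≤ (I.filter (fun i => t ≤ i)).card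
    · -- case one
      obtain ⟨a, ha, b, hb, hab⟩ := hP ((J.filter (fun j => j ≤ t)).image (fun j => p (j - 1)))
        ((I.filter (fun i => t ≤ i)).image (fun i => p (i + 1))) (by
          rw [disjoint_left]
          intro x hx hx'
          obtain ⟨j, hj, rfl⟩ := mem_image.1 hx
          obtain ⟨i, hi, h⟩ := mem_image.1 hx'
          rw [mem_filter] at hj hi
          have h1 := hJmem j hj.1
          have h2 := hImem i hi.1
          have := hp.inj _ _ (by omega) (by omega) h
          omega) (by
          rw [hinjOn _ (fun j => j - 1)]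
          · omega
          · intro s hs
            have := hJmem s (mem_filter.1 hs).1
            show s - 1 < N
            omega
          · intro s hs s' hs' h
            have h1 := hJmem s (mem_filter.1 hs).1
            have h2 := hJmem s' (mem_filter.1 hs').1
            try simp only at h
            omega) (by
          rw [hinjOn _ (fun j => j + 1)]
          · omega
          · intro s hs
            exact (hImem s (mem_filter.1 hs).1).1
          · intro s hs s' hs' h
            try simp only at h
            omega)
      obtain ⟨j, hj, rfl⟩ := mem_image.1 ha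
      obtain ⟨i, hi, rfl⟩ := mem_image.1 hb
      rw [mem_filter] at hj hi
      have h1 := hJmem j hj.1
      have h2 := hImem i hi.1
      exact case_one hp h1.1 (by omega) h2.1 h1.2.2 h2.2 hab
    · -- case two
      have hsplit : (I.filter (fun i => t ≤ i)).card + (I.filter (fun i => ¬ t ≤ i)).card
          = I.card := card_filter_add_card_filter_not _
      have hJ' : m + 1 ≤ ((J.filter (fun j => t ≤ j)).erase (N - 1)).card := by
        have := pred_card_le_card_erase (s := (J.filter (fun j => t ≤ j))) (a := N - 1)
        omega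
      obtain ⟨a, ha, b, hb, hab⟩ := hP (((J.filter (fun j => t ≤ j)).erase (N - 1)).image
          (fun j => p (j + 1)))
        ((I.filter (fun i => ¬ t ≤ i)).image (fun i => p (i + 1))) (by
          rw [disjoint_left]
          intro x hx hx'
          obtain ⟨j, hj, rfl⟩ := mem_image.1 hx
          obtain ⟨i, hi, h⟩ := mem_image.1 hx'
          rw [mem_erase, mem_filter] at hj
          rw [mem_filter] at hi
          have h1 := hJmem j hj.2.1
          have h2 := hImem i hi.1
          have := hp.inj _ _ (by omega) (by omega) h
          omega) (by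
          rw [hinjOn _ (fun j => j + 1)]
          · omega
          · intro s hs
            rw [mem_erase, mem_filter] at hs
            have := hJmem s hs.2.1
            show s + 1 < N
            omega
          · intro s hs s' hs' h
            try simp only at h
            omega) (by
          rw [hinjOn _ (fun j => j + 1)]
          · omega
          · intro s hs
            exact (hImem s (mem_filter.1 hs).1).1
          · intro s hs s' hs' h
            try simp only at h
            omega)
      obtain ⟨j, hj, rfl⟩ := mem_image.1 ha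
      obtain ⟨i, hi, rfl⟩ := mem_image.1 hb
      rw [mem_erase, mem_filter] at hj
      rw [mem_filter] at hi
      have h1 := hJmem j hj.2.1
      have h2 := hImem i hi.1
      exact case_two hp (by omega) (by omega) h1.2.2 h2.2 hab
  obtain ⟨q, hq, himg, hc⟩ := hcyc
  -- the cycle is spanning
  have hspan : (range N).image q = univ := by
    by_contra hne
    set U := (range N).image q with hU
    have hex : ∃ y ∈ U, ∃ x ∉ U, H.Adj y x := by
      have hUc : U.card = N := by
        rw [hU, card_image_of_injOn, card_range]
        intro i hi j hj hij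
        exact hq.inj i j (by simpa using hi) (by simpa using hj) hij
      have hNm : m ≤ N := by
        have : J.card ≤ N := by
          rw [hJ]; exact (card_filter_le _ _).trans (by simp)
        omega
      have hne' : ∃ x, x ∉ U := by
        by_contra hcon
        push Not at hcon
        exact hne (eq_univ_iff_forall.2 hcon)
      obtain ⟨x, hx⟩ := hne'
      by_cases hcard : m ≤ (Uᶜ).card
      · obtain ⟨a, ha, b, hb, hab⟩ := hP U Uᶜ disjoint_compl_right (by omega) hcard
        exact ⟨a, ha, b, by simpa using hb, hab⟩
      · -- x has a neighbour in U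
        have hx2 := hD x
        have : ∃ y ∈ univ.filter (fun w => H.Adj x w), y ∈ U := by
          by_contra hcon
          push Not at hcon
          have : (univ.filter (fun w => H.Adj x w)) ⊆ Uᶜ := by
            intro y hy
            simpa using hcon y hy
          have := card_le_card this
          omega
        obtain ⟨y, hy, hyU⟩ := this
        exact ⟨y, hyU, x, hx, (by simpa using hy : H.Adj x y).symm⟩
    obtain ⟨y, hy, x, hx, hyx⟩ := hex
    obtain ⟨t, ht, rfl⟩ := mem_image.1 hy
    have htN : t < N := by simpa using ht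
    have hrot := rotate hq hc htN
    have := hmax (N + 1) ⟨_, prepend hrot (x := x) (by
      intro i hi h
      apply hx
      rw [hU, mem_image]
      exact ⟨(t + i) % N, by simpa using Nat.mod_lt _ (by omega), h⟩) (by
      simp only [add_zero, Nat.mod_eq_of_lt htN]
      exact hyx.symm)⟩
    omega
  have hNcard : N = Fintype.card V := by
    rw [← card_univ, ← hspan, card_image_of_injOn, card_range]
    intro i hi j hj hij
    exact hq.inj i j (by simpa using hi) (by simpa using hj) hij
  subst hNcard
  exact ⟨q, hq, hspan, hc⟩

open Classical in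
/-- Hamilton paths from every vertex, as lists. -/
theorem exists_list (H : SimpleGraph V) (m : ℕ)
    (hD : ∀ v, 2 * m + 2 ≤ (univ.filter (fun w => H.Adj v w)).card)
    (hP : ∀ A B : Finset V, Disjoint A B → m ≤ A.card → m ≤ B.card →
      ∃ a ∈ A, ∃ b ∈ B, H.Adj a b) (v : V) :
    ∃ l : List V, (v :: l).Nodup ∧ (∀ x, x ∈ v :: l) ∧ (v :: l).IsChain H.Adj := by
  haveI : Nonempty V := ⟨v⟩
  obtain ⟨q, hq, hspan, hc⟩ := exists_cycle H m hD hP
  obtain ⟨t, ht, htv⟩ : ∃ t, t < Fintype.card V ∧ q t = v := by
    have : v ∈ (range (Fintype.card V)).image q := by rw [hspan]; simp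
    obtain ⟨t, ht, h⟩ := mem_image.1 this
    exact ⟨t, by simpa using ht, h⟩
  have hr := rotate hq hc ht
  set N := Fintype.card V with hN
  set r : ℕ → V := fun s => q ((t + s) % N) with hrdef
  have hr0 : r 0 = v := by
    simp only [hrdef, add_zero, Nat.mod_eq_of_lt ht]
    exact htv
  have hl : (List.range N).map r = v :: (((List.range N).map r).tail) := by
    obtain ⟨k, hk⟩ : ∃ k, N = k + 1 := ⟨N - 1, by omega⟩
    rw [hk, List.range_succ_eq_map]
    simp [hr0]
  refine ⟨((List.range N).map r).tail, ?_, ?_, ?_⟩
  · rw [← hl]
    rw [List.nodup_map_iff_inj_on List.nodup_range]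
    intro x hx y hy hxy
    exact hr.inj x y (by simpa using hx) (by simpa using hy) hxy
  · rw [← hl]
    intro x
    have hcard : ((range N).image r) = univ := by
      apply eq_univ_of_card
      rw [card_image_of_injOn, card_range]
      intro i hi j hj hij
      exact hr.inj i j (by simpa using hi) (by simpa using hj) hij
    have : x ∈ ((range N).image r) := by rw [hcard]; simp
    obtain ⟨s, hs, rfl⟩ := mem_image.1 this
    exact List.mem_map.2 ⟨s, by simpa using hs, rfl⟩
  · rw [← hl]
    rw [List.isChain_iff_getElem]
    intro i hi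
    simp only [List.length_map, List.length_range] at hi
    simp only [List.getElem_map, List.getElem_range]
    exact hr.adj i hi

end Q299.PC
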