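import Pool.Agent.Q299.PC.Defs
import Pool.Agent.Q299.PC.Ham

set_option linter.unusedSectionVars false

namespace Q299.PC

open Finset

open scoped Classical

variable {V : Type*} [Fintype V]

lemma exists_cover (H : SimpleGraph V) : ∃ L, IsPathCover H L := by
  refine ⟨(univ : Finset V).toList.map (fun v => [v]), ?_, ?_, ?_⟩
  · intro l hl
    obtain ⟨v, _, rfl⟩ := List.mem_map.1 hl
    simp
  · have : ((univ : Finset V).toList.map (fun v => [v])).flatten = (univ : Finset V).toList := by
      rw [← List.flatMap_def]; simp
    rw [this]; exact Finset.nodup_toList _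
  · intro v
    have : ((univ : Finset V).toList.map (fun v => [v])).flatten = (univ : Finset V).toList := by
      rw [← List.flatMap_def]; simp
    rw [this]; simp

lemma pathCoverNum_le {H : SimpleGraph V} {L : List (List V)} (h : IsPathCover H L) :
    pathCoverNum H ≤ L.length := Nat.sInf_le ⟨L, h, rfl⟩

lemma exists_min_cover (H : SimpleGraph V) : ∃ L, IsPathCover H L ∧ L.length = pathCoverNum H := by
  obtain ⟨L, hL⟩ := exists_cover H
  exact Nat.sInf_mem (s := {m | ∃ L : List (List V), IsPathCover H L ∧ L.length = m})
    ⟨L.length, L, hL, rfl⟩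

/-- in a path with an isolated vertex there is no other vertex -/
lemma eq_singleton {H : SimpleGraph V} {l : List V} (hl : l.IsChain H.Adj) {v : V} (hv : v ∈ l)
    (hiso : ∀ w, ¬ H.Adj v w) : l = [v] := by
  obtain ⟨i, hi, rfl⟩ := List.getElem_of_mem hv
  have hlen : l.length = 1 := by
    by_contra hne
    have h2 : 2 ≤ l.length := by omega
    rw [List.isChain_iff_getElem] at hl
    by_cases h : i + 1 < l.length
    · exact hiso _ (hl i h)
    · have h3 := hl (i - 1) (by omega)
      have e : i - 1 + 1 = i := by omega
      simp only [e] at h3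
      exact hiso _ h3.symm
  obtain ⟨a, ha⟩ := List.length_eq_one_iff.1 hlen
  subst ha
  have : i = 0 := by simp at hi; omega
  subst this
  rfl

/-- isolated vertices force many paths -/
lemma lower_isolated {H : SimpleGraph V} {S : Finset V} (hS : ∀ v ∈ S, ∀ w, ¬ H.Adj v w)
    {w : V} (hw : w ∉ S) : S.card + 1 ≤ pathCoverNum H := by
  obtain ⟨L, ⟨h1, h2, h3⟩, hlen⟩ := exists_min_cover H
  rw [← hlen]
  obtain ⟨lw, hlw, hwl⟩ := List.mem_flatten.1 (h3 w)
  have hmem : ∀ v ∈ S, [v] ∈ L := by
    intro v hv
    obtain ⟨l, hl, hvl⟩ := List.mem_flatten.1 (h3 v)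
    have := eq_singleton (h1 l hl).2 hvl (hS v hv)
    rw [← this]; exact hl
  have hlw' : lw ∉ S.image (fun v => [v]) := by
    intro h
    obtain ⟨v, hv, rfl⟩ := mem_image.1 h
    simp at hwl
    exact hw (hwl ▸ hv)
  have hsub : insert lw (S.image (fun v => [v])) ⊆ L.toFinset := by
    intro l hl
    rcases mem_insert.1 hl with rfl | hl
    · simpa using hlw
    · obtain ⟨v, hv, rfl⟩ := mem_image.1 hl
      simpa using hmem v hv
  have hc := card_le_card hsub
  rw [card_insert_of_notMem hlw', card_image_of_injective _ (fun a b h => by simpa using h)] at hc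
  exact hc.trans (List.toFinset_card_le L)

lemma flatten_singles (S : Finset V) : (S.toList.map (fun v => [v])).flatten = S.toList := by
  rw [← List.flatMap_def]; simp

/-- the cover given by a path on the complement of `S` and the singletons of `S`. -/
lemma upper_one {H : SimpleGraph V} {S : Finset V} {l : List V} (hl : l ≠ [])
    (hch : l.IsChain H.Adj) (hnd : l.Nodup) (hmem : ∀ x, x ∈ l ↔ x ∉ S) :
    pathCoverNum H ≤ S.card + 1 := by
  have hcov : IsPathCover H (l :: S.toList.map (fun v => [v])) := by
    refine ⟨?_, ?_, ?_⟩
    · intro l' hl'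
      rcases List.mem_cons.1 hl' with rfl | hl'
      · exact ⟨hl, hch⟩
      · obtain ⟨v, _, rfl⟩ := List.mem_map.1 hl'
        simp
    · rw [List.flatten_cons, flatten_singles, List.nodup_append]
      refine ⟨hnd, Finset.nodup_toList _, ?_⟩
      intro a ha b hb hab
      subst hab
      exact (hmem a).1 ha (by simpa using hb)
    · intro v
      rw [List.flatten_cons, flatten_singles, List.mem_append]
      by_cases hv : v ∈ S
      · right; simpa using hv
      · left; exact (hmem v).2 hv
  have := pathCoverNum_le hcov
  simpa using this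

/-- joining two adjacent vertices of `S` saves one path. -/
lemma upper_two {H : SimpleGraph V} {S : Finset V} {l : List V} (hl : l ≠ [])
    (hch : l.IsChain H.Adj) (hnd : l.Nodup) (hmem : ∀ x, x ∈ l ↔ x ∉ S) {u v : V}
    (hu : u ∈ S) (hv : v ∈ S) (huv : H.Adj u v) :
    pathCoverNum H ≤ S.card := by
  have hne : u ≠ v := huv.ne
  have hcov : IsPathCover H ([u, v] :: l :: ((S.erase u).erase v).toList.map (fun v => [v])) := by
    refine ⟨?_, ?_, ?_⟩
    · intro l' hl'
      rcases List.mem_cons.1 hl' with rfl | hl'
      · simpa using huv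
      rcases List.mem_cons.1 hl' with rfl | hl'
      · exact ⟨hl, hch⟩
      · obtain ⟨v, _, rfl⟩ := List.mem_map.1 hl'
        simp
    · rw [List.flatten_cons, List.flatten_cons, flatten_singles, List.nodup_append,
        List.nodup_append]
      refine ⟨by simp [hne], ⟨hnd, Finset.nodup_toList _, ?_⟩, ?_⟩
      · intro a ha b hb hab
        subst hab
        have : a ∈ S := by
          have := Finset.mem_toList.1 hb
          simp at this
          exact this.2.2
        exact (hmem a).1 ha this
      · intro a ha b hb hab
        subst hab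
        simp only [List.mem_cons, List.not_mem_nil, or_false] at ha
        rcases List.mem_append.1 hb with hb1 | hb1
        · rcases ha with rfl | rfl
          · exact (hmem _).1 hb1 hu
          · exact (hmem _).1 hb1 hv
        · have := Finset.mem_toList.1 hb1
          simp at this
          rcases ha with rfl | rfl
          · exact this.2.1 rfl
          · exact this.1 rfl
    · intro w
      rw [List.flatten_cons, List.flatten_cons, flatten_singles, List.mem_append, List.mem_append]
      by_cases hw : w ∈ S
      · by_cases h1 : w = u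
        · left; simp [h1]
        · by_cases h2 : w = v
          · left; simp [h2]
          · right; right
            simp [h1, h2, hw]
      · right; left; exact (hmem w).2 hw
  have := pathCoverNum_le hcov
  have hc : ((S.erase u).erase v).card = S.card - 2 := by
    rw [card_erase_of_mem (by simp [hv, hne.symm]), card_erase_of_mem hu]
    omega
  have h2 : 2 ≤ S.card := by
    have : ({u, v} : Finset V) ⊆ S := by
      intro x hx
      simp at hx
      rcases hx with rfl | rfl
      · exact hu
      · exact hv
    have h3 := card_le_card this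
    rwa [card_pair hne] at h3
  simp only [List.length_cons, List.length_map, Finset.length_toList] at this
  omega

/-- attaching a vertex of `S` to the path saves one path. -/
lemma upper_three {H : SimpleGraph V} {S : Finset V} {v : V} {l : List V}
    (hch : (v :: l).IsChain H.Adj) (hnd : (v :: l).Nodup) (hmem : ∀ x, x ∈ v :: l ↔ x ∉ S) {u : V}
    (hu : u ∈ S) (huv : H.Adj u v) :
    pathCoverNum H ≤ S.card := by
  have hcov : IsPathCover H ((u :: v :: l) :: (S.erase u).toList.map (fun v => [v])) := by
    refine ⟨?_, ?_, ?_⟩
    · intro l' hl'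
      rcases List.mem_cons.1 hl' with rfl | hl'
      · exact ⟨by simp, List.isChain_cons_cons.2 ⟨huv, hch⟩⟩
      · obtain ⟨v, _, rfl⟩ := List.mem_map.1 hl'
        simp
    · rw [List.flatten_cons, flatten_singles, List.nodup_append]
      refine ⟨?_, Finset.nodup_toList _, ?_⟩
      · rw [List.nodup_cons]
        exact ⟨fun h => (hmem u).1 h hu, hnd⟩
      · intro a ha b hb hab
        subst hab
        have hb' := Finset.mem_toList.1 hb
        simp at hb'
        rcases List.mem_cons.1 ha with rfl | ha
        · exact hb'.1 rfl
        · exact (hmem a).1 ha hb'.2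
    · intro w
      rw [List.flatten_cons, flatten_singles, List.mem_append]
      by_cases hw : w ∈ S
      · by_cases h1 : w = u
        · left; simp [h1]
        · right; simp [h1, hw]
      · left; exact List.mem_cons_of_mem _ ((hmem w).2 hw)
  have := pathCoverNum_le hcov
  have hc : (S.erase u).card = S.card - 1 := card_erase_of_mem hu
  have h2 : 0 < S.card := card_pos.2 ⟨u, hu⟩
  simp only [List.length_cons, List.length_map, Finset.length_toList] at this
  omega

/-- number of edges between two sets -/
noncomputable def eb (G : SimpleGraph V) (A B : Finset V) : ℕ :=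
  ((A ×ˢ B).filter (fun x => G.Adj x.1 x.2)).card

noncomputable def dg (G : SimpleGraph V) (v : V) : ℕ := (univ.filter (fun w => G.Adj v w)).card

/-- Hamilton paths outside a small set of vertices, after the deletion of few edges. -/
lemma ham_outside (G : SimpleGraph V) (m T : ℕ)
    (hP : ∀ A B : Finset V, Disjoint A B → m ≤ A.card → m ≤ B.card → T < eb G A B)
    (F : Finset (Sym2 V)) (hF : F.card ≤ T) (S : Finset V)
    (hdeg : ∀ v, v ∉ S → 2 * m + 2 + S.card ≤ dg (G.deleteEdges (F : Set (Sym2 V))) v)
    (v : V) (hv : v ∉ S) :
    ∃ l : List V, (v :: l).Nodup ∧ (∀ x, x ∈ v :: l ↔ x ∉ S) ∧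
      (v :: l).IsChain (G.deleteEdges (F : Set (Sym2 V))).Adj := by
  set H := G.deleteEdges (F : Set (Sym2 V)) with hH
  let W := {x : V // x ∉ S}
  let H' : SimpleGraph W := H.comap (Subtype.val : W → V)
  have hD' : ∀ x : W, 2 * m + 2 ≤ (univ.filter (fun w : W => H'.Adj x w)).card := by
    intro x
    have h1 : 2 * m + 2 + S.card ≤ (univ.filter (fun w => H.Adj x.1 w)).card := by
      have := hdeg x.1 x.2
      unfold dg at this
      convert this
    have h2 : univ.filter (fun w => H.Adj x.1 w) ⊆
        (univ.filter (fun w : W => H'.Adj x w)).image Subtype.val ∪ S := by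
      intro w hw
      simp only [mem_filter, mem_univ, true_and] at hw
      by_cases hws : w ∈ S
      · exact mem_union_right _ hws
      · apply mem_union_left
        exact mem_image.2 ⟨⟨w, hws⟩, by simpa [H'] using hw, rfl⟩
    have h3 := (card_le_card h2).trans (card_union_le _ _)
    have h4 := card_image_le (s := univ.filter (fun w : W => H'.Adj x w)) (f := Subtype.val)
    omega
  have hP' : ∀ A B : Finset W, Disjoint A B → m ≤ A.card → m ≤ B.card →
      ∃ a ∈ A, ∃ b ∈ B, H'.Adj a b := by
    intro A B hAB hA hB
    have h1 := hP (A.map (Function.Embedding.subtype _)) (B.map (Function.Embedding.subtype _))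
      (by
        rw [Finset.disjoint_map]
        exact hAB) (by simpa using hA) (by simpa using hB)
    by_contra hcon
    push Not at hcon
    have h2 : eb G (A.map (Function.Embedding.subtype _)) (B.map (Function.Embedding.subtype _))
        ≤ F.card := by
      unfold eb
      apply card_le_card_of_injOn (fun x => s(x.1, x.2))
      · intro x hx
        simp only [coe_filter, mem_product, mem_map, Function.Embedding.coe_subtype,
          Set.mem_ofPred_eq] at hx
        obtain ⟨⟨⟨a, ha, ha'⟩, ⟨b, hb, hb'⟩⟩, hadj⟩ := hx
        by_contra hnot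
        apply hcon a ha b hb
        show H.Adj a.1 b.1
        rw [hH, SimpleGraph.deleteEdges_adj]
        rw [ha', hb']
        exact ⟨hadj, hnot⟩
      · intro x hx y hy hxy
        simp only [coe_filter, mem_product, mem_map, Function.Embedding.coe_subtype,
          Set.mem_ofPred_eq] at hx hy
        obtain ⟨⟨⟨a, ha, ha'⟩, ⟨b, hb, hb'⟩⟩, _⟩ := hx
        obtain ⟨⟨⟨c, hc, hc'⟩, ⟨d, hd, hd'⟩⟩, _⟩ := hy
        simp only at hxy
        rcases Sym2.eq_iff.1 hxy with ⟨e1, e2⟩ | ⟨e1, e2⟩
        · exact Prod.ext e1 e2
        · exfalso
          have : a = d := Subtype.ext (by rw [ha', hd', e1])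
          rw [this] at ha
          exact (Finset.disjoint_left.1 hAB) ha hd
    omega
  obtain ⟨l, h1, h2, h3⟩ := exists_list H' m (fun x => by convert hD' x) hP' ⟨v, hv⟩
  refine ⟨l.map Subtype.val, ?_, ?_, ?_⟩
  · have : (v :: l.map Subtype.val) = ((⟨v, hv⟩ : W) :: l).map Subtype.val := by simp
    rw [this]
    exact h1.map Subtype.val_injective
  · intro x
    have : (v :: l.map Subtype.val) = ((⟨v, hv⟩ : W) :: l).map Subtype.val := by simp
    rw [this, List.mem_map]
    constructor
    · rintro ⟨a, _, rfl⟩
      exact a.2
    · intro hx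
      exact ⟨⟨x, hx⟩, h2 _, rfl⟩
  · have : (v :: l.map Subtype.val) = ((⟨v, hv⟩ : W) :: l).map Subtype.val := by simp
    rw [this, List.isChain_map]
    exact h3

end Q299.PC
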