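import Pool.Agent.Q299.PC.Det

set_option linter.unusedSectionVars false

namespace Q299.PC

open Finset

open scoped Classical

variable {V : Type*} [Fintype V]

/-- edges of `G` meeting `S`, as a finset -/
noncomputable def inc (G : SimpleGraph V) (S : Finset V) : Finset (Sym2 V) :=
  univ.filter (fun e => e ∈ G.edgeSet ∧ ∃ v ∈ S, v ∈ e)

lemma mem_inc {G : SimpleGraph V} {S : Finset V} {e : Sym2 V} :
    e ∈ inc G S ↔ e ∈ G.edgeSet ∧ ∃ v ∈ S, v ∈ e := by simp [inc]

lemma encard_inc (G : SimpleGraph V) (S : Finset V) :
    {e ∈ G.edgeSet | ∃ v ∈ S, v ∈ e}.encard = ((inc G S).card : ℕ∞) := by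
  rw [← Set.encard_coe_eq_coe_finsetCard]
  congr 1
  ext e
  simp [inc]

lemma card_inc_singleton (G : SimpleGraph V) (v : V) :
    (univ.filter (fun e => e ∈ G.edgeSet ∧ v ∈ e)).card = dg G v := by
  unfold dg
  symm
  apply card_bij (fun w _ => s(v, w))
  · intro w hw
    simp only [mem_filter, mem_univ, true_and] at hw ⊢
    exact ⟨hw, by simp⟩
  · intro a _ b _ hab
    rcases Sym2.eq_iff.1 hab with ⟨_, h⟩ | ⟨h1, h2⟩
    · exact h
    · rw [← h1, h2]
  · intro e he
    simp only [mem_filter, mem_univ, true_and] at he
    obtain ⟨w, rfl⟩ := Sym2.mem_iff_exists.1 he.2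
    exact ⟨w, by simpa using he.1, rfl⟩

lemma card_inc_le (G : SimpleGraph V) (S : Finset V) (d : ℕ) (h : ∀ v, dg G v ≤ d) :
    (inc G S).card ≤ S.card * d := by
  have : inc G S ⊆ S.biUnion (fun v => univ.filter (fun e => e ∈ G.edgeSet ∧ v ∈ e)) := by
    intro e he
    obtain ⟨h1, v, hv, hve⟩ := mem_inc.1 he
    exact mem_biUnion.2 ⟨v, hv, by simp only [mem_filter, mem_univ, true_and]; exact ⟨h1, hve⟩⟩
  calc (inc G S).card ≤ _ := card_le_card this
    _ ≤ S.card * d := by
      apply card_biUnion_le_card_mul
      intro v _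
      rw [card_inc_singleton]
      exact h v

lemma dg_eq (G : SimpleGraph V) (v : V) [inst : DecidablePred (fun w => G.Adj v w)] :
    (univ.filter (fun w => G.Adj v w)).card = dg G v := by
  unfold dg
  congr

/-- degrees drop by at most the number of deleted edges at the vertex -/
lemma dg_le_add (G : SimpleGraph V) (F : Finset (Sym2 V)) (v : V) :
    dg G v ≤ dg (G.deleteEdges (F : Set (Sym2 V))) v + (F.filter (fun e => v ∈ e)).card := by
  rw [← dg_eq (G := G)]
  have h : univ.filter (fun w => G.Adj v w) ⊆
      univ.filter (fun w => (G.deleteEdges (F : Set (Sym2 V))).Adj v w) ∪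
      univ.filter (fun w => s(v, w) ∈ F) := by
    intro w hw
    simp only [mem_filter, mem_univ, true_and, mem_union, SimpleGraph.deleteEdges_adj] at hw ⊢
    by_cases h : s(v, w) ∈ F
    · right; exact h
    · left; exact ⟨hw, by simpa using h⟩
  have h2 : (univ.filter (fun w => s(v, w) ∈ F)).card ≤ (F.filter (fun e => v ∈ e)).card := by
    apply card_le_card_of_injOn (fun w => s(v, w))
    · intro w hw
      simp only [coe_filter, mem_univ, true_and, Set.mem_ofPred_eq] at hw ⊢
      exact ⟨hw, by simp⟩
    · intro a _ b _ hab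
      rcases Sym2.eq_iff.1 hab with ⟨_, h⟩ | ⟨h1, h2⟩
      · exact h
      · rw [← h1, h2]
  have h3 := (card_le_card h).trans (card_union_le _ _)
  rw [dg_eq (G := G.deleteEdges (F : Set (Sym2 V)))] at h3
  omega

lemma sum_inc_le (F : Finset (Sym2 V)) (L : Finset V) :
    ∑ v ∈ L, (F.filter (fun e => v ∈ e)).card ≤ F.card + L.card * L.card := by
  have h1 : ∑ v ∈ L, (F.filter (fun e => v ∈ e)).card =
      ∑ e ∈ F, (L.filter (fun v => v ∈ e)).card := by
    simp only [card_filter]
    exact sum_comm
  rw [h1]
  have h2 : ∀ e ∈ F, (L.filter (fun v => v ∈ e)).card ≤ 1 + (if e ∈ L.sym2 then 1 else 0) := by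
    intro e he
    induction e using Sym2.ind with
    | _ a b =>
      have hsub : L.filter (fun v => v ∈ s(a, b)) ⊆ {a, b} := by
        intro x hx
        simp only [mem_filter, Sym2.mem_iff] at hx
        simp [hx.2]
      by_cases hab : a ∈ L ∧ b ∈ L
      · rw [if_pos (by simpa using hab)]
        exact (card_le_card hsub).trans (card_le_two)
      · have : (L.filter (fun v => v ∈ s(a, b))).card ≤ 1 := by
          rw [card_le_one]
          intro x hx y hy
          have hx' := hsub hx
          have hy' := hsub hy
          simp only [mem_filter] at hx hy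
          simp only [mem_insert, mem_singleton] at hx' hy'
          rcases hx' with rfl | rfl <;> rcases hy' with rfl | rfl
          · rfl
          · exact absurd ⟨hx.1, hy.1⟩ hab
          · exact absurd ⟨hy.1, hx.1⟩ hab
          · rfl
        omega
  calc ∑ e ∈ F, (L.filter (fun v => v ∈ e)).card
      ≤ ∑ e ∈ F, (1 + (if e ∈ L.sym2 then 1 else 0)) := sum_le_sum h2
    _ = F.card + (F.filter (fun e => e ∈ L.sym2 ∧ True)).card := by
        rw [sum_add_distrib, sum_const, smul_eq_mul, mul_one, card_filter]
        simp
    _ ≤ F.card + L.card * L.card := by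
        apply Nat.add_le_add_left
        -- pairs inside L, off the diagonal
        have h3 : F.filter (fun e => e ∈ L.sym2 ∧ True) ⊆ (L ×ˢ L).image (fun x => s(x.1, x.2)) := by
          intro e he
          simp only [mem_filter, and_true] at he
          obtain ⟨_, he⟩ := he
          induction e using Sym2.ind with
          | _ a b =>
            rw [Finset.mk_mem_sym2_iff] at he
            exact mem_image.2 ⟨(a, b), by simpa using he, rfl⟩
        calc _ ≤ ((L ×ˢ L).image (fun x => s(x.1, x.2))).card := card_le_card h3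
          _ ≤ (L ×ˢ L).card := card_image_le
          _ = L.card * L.card := card_product _ _

theorem det_main (G : SimpleGraph V) (k m T d1 d2 : ℕ) (hk : 2 ≤ k) (hkn : k ≤ Fintype.card V)
    (h1 : ∀ v, d1 ≤ dg G v) (h2 : ∀ v, dg G v ≤ d2)
    (hP : ∀ A B : Finset V, Disjoint A B → m ≤ A.card → m ≤ B.card → T < eb G A B)
    (hT : (k - 1) * d2 ≤ T)
    (hmain : (k - 1) * d2 + k * k + k * (2 * m + 2 + k) < k * d1) :
    fNum k G = minIncident (k - 1) G ∧ minIncident (k - 1) G ≤ (((k - 1) * d2 : ℕ) : ℕ∞) := by
  have hd1 : 2 * m + 2 + k + k ≤ d1 := by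
    by_contra hcon
    push Not at hcon
    have h3 : k * d1 ≤ k * (2 * m + 2 + k + k) := Nat.mul_le_mul_left _ hcon.le
    have h4 : k * (2 * m + 2 + k + k) = k * (2 * m + 2 + k) + k * k := by ring
    omega
  obtain ⟨S0, hS0⟩ : ∃ S : Finset V, S.card = k - 1 := by
    obtain ⟨S, _, hS⟩ := exists_subset_card_eq (s := (univ : Finset V)) (n := k - 1)
      (by rw [card_univ]; omega)
    exact ⟨S, hS⟩
  have hminle : minIncident (k - 1) G ≤ (((k - 1) * d2 : ℕ) : ℕ∞) := by
    calc minIncident (k - 1) G ≤ {e ∈ G.edgeSet | ∃ v ∈ S0, v ∈ e}.encard :=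
          iInf₂_le S0 hS0
      _ = ((inc G S0).card : ℕ∞) := encard_inc G S0
      _ ≤ (((k - 1) * d2 : ℕ) : ℕ∞) := by
          have := card_inc_le G S0 d2 h2
          rw [hS0] at this
          exact_mod_cast this
  refine ⟨le_antisymm ?_ ?_, hminle⟩
  · -- upper bound
    unfold minIncident
    apply le_iInf₂
    intro S hS
    rw [encard_inc]
    have hsub : ((inc G S : Finset (Sym2 V)) : Set (Sym2 V)) ⊆ G.edgeSet := by
      intro e he
      exact (mem_inc.1 (by simpa using he)).1
    have hcardF : (inc G S).card ≤ T := by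
      have := card_inc_le G S d2 h2
      rw [hS] at this
      omega
    refine iInf₂_le (inc G S) ⟨hsub, ?_⟩
    obtain ⟨w, hw⟩ : ∃ w, w ∉ S := by
      by_contra hcon
      push Not at hcon
      have : S = univ := eq_univ_iff_forall.2 hcon
      rw [this, card_univ] at hS
      omega
    apply le_antisymm
    · obtain ⟨l, hl1, hl2, hl3⟩ := ham_outside G m T hP (inc G S) hcardF S (by
        intro v hv
        have h3 := h1 v
        have h4 : univ.filter (fun w => G.Adj v w) ⊆
            univ.filter (fun w => (G.deleteEdges ((inc G S : Finset (Sym2 V)) :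
              Set (Sym2 V))).Adj v w) ∪ S := by
          intro x hx
          simp only [mem_filter, mem_univ, true_and, mem_union, SimpleGraph.deleteEdges_adj] at hx ⊢
          by_cases hxS : x ∈ S
          · right; exact hxS
          · left
            refine ⟨hx, ?_⟩
            intro hmem
            have hmem' : s(v, x) ∈ inc G S := by simpa using hmem
            obtain ⟨_, u, hu, hu'⟩ := mem_inc.1 hmem'
            rcases Sym2.mem_iff.1 hu' with rfl | rfl
            · exact hv hu
            · exact hxS hu
        have h5 := (card_le_card h4).trans (card_union_le _ _)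
        rw [dg_eq, dg_eq] at h5
        omega) w hw
      have := upper_one (H := G.deleteEdges ((inc G S : Finset (Sym2 V)) : Set (Sym2 V)))
        (S := S) (l := w :: l) (by simp) hl3 hl1 hl2
      omega
    · have := lower_isolated (H := G.deleteEdges ((inc G S : Finset (Sym2 V)) : Set (Sym2 V)))
        (S := S) (by
          intro v hv x hx
          rw [SimpleGraph.deleteEdges_adj] at hx
          apply hx.2
          have : s(v, x) ∈ inc G S := mem_inc.2 ⟨hx.1, v, hv, by simp⟩
          simpa using this) hw
      omega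
  · -- lower bound
    unfold fNum
    apply le_iInf₂
    rintro F ⟨hFsub, hFk⟩
    by_contra hcon
    push Not at hcon
    have hall : ∀ S : Finset V, S.card = k - 1 → F.card < (inc G S).card := by
      intro S hS
      have h3 : minIncident (k - 1) G ≤ ((inc G S).card : ℕ∞) := by
        rw [← encard_inc]
        exact iInf₂_le S hS
      exact_mod_cast hcon.trans_le h3
    have hFc : F.card < (k - 1) * d2 := by
      have := card_inc_le G S0 d2 h2
      rw [hS0] at this
      exact (hall S0 hS0).trans_le this
    have hFT : F.card ≤ T := by omega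
    set H := G.deleteEdges (F : Set (Sym2 V)) with hH
    set L := univ.filter (fun v => dg H v < 2 * m + 2 + (k - 1)) with hL
    have hLc : L.card ≤ k - 1 := by
      by_contra hbig
      push Not at hbig
      obtain ⟨L', hL', hL'c⟩ := exists_subset_card_eq (s := L) (n := k) (by omega)
      have h3 : ∑ v ∈ L', dg G v ≤ ∑ v ∈ L', (dg H v + (F.filter (fun e => v ∈ e)).card) :=
        sum_le_sum (fun v _ => dg_le_add G F v)
      have h4 : k * d1 ≤ ∑ v ∈ L', dg G v := by
        calc k * d1 = ∑ _v ∈ L', d1 := by rw [sum_const, hL'c, smul_eq_mul]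
          _ ≤ _ := sum_le_sum (fun v _ => h1 v)
      have h5 : ∑ v ∈ L', dg H v ≤ k * (2 * m + 2 + k) := by
        calc ∑ v ∈ L', dg H v ≤ ∑ _v ∈ L', (2 * m + 2 + k) := by
              apply sum_le_sum
              intro v hv
              have := hL' hv
              simp only [hL, mem_filter, mem_univ, true_and] at this
              omega
          _ = _ := by rw [sum_const, hL'c, smul_eq_mul]
      have h6 := sum_inc_le F L'
      rw [hL'c] at h6
      rw [sum_add_distrib] at h3
      omega
    have hdegL : ∀ v, v ∉ L → 2 * m + 2 + L.card ≤ dg H v := by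
      intro v hv
      simp only [hL, mem_filter, mem_univ, true_and, not_lt] at hv
      omega
    have hHam := fun v hv => ham_outside G m T hP F hFT L hdegL v hv
    obtain ⟨w, hw⟩ : ∃ w, w ∉ L := by
      by_contra hcon2
      push Not at hcon2
      have : L = univ := eq_univ_iff_forall.2 hcon2
      rw [this, card_univ] at hLc
      omega
    rcases Nat.lt_or_ge L.card (k - 1) with hlt | hge
    · obtain ⟨l, hl1, hl2, hl3⟩ := hHam w hw
      have := upper_one (H := H) (S := L) (l := w :: l) (by simp) hl3 hl1 hl2
      omega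
    · have hLeq : L.card = k - 1 := le_antisymm hLc hge
      have hlt := hall L hLeq
      obtain ⟨e, he, heF⟩ : ∃ e ∈ inc G L, e ∉ F := by
        by_contra hcon2
        push Not at hcon2
        have := card_le_card (s := inc G L) (t := F) hcon2
        omega
      obtain ⟨heG, u, hu, hue⟩ := mem_inc.1 he
      obtain ⟨v, rfl⟩ := Sym2.mem_iff_exists.1 hue
      have huv : H.Adj u v := by
        rw [hH, SimpleGraph.deleteEdges_adj]
        exact ⟨heG, by simpa using heF⟩
      by_cases hv : v ∈ L
      · obtain ⟨l, hl1, hl2, hl3⟩ := hHam w hw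
        have := upper_two (H := H) (S := L) (l := w :: l) (by simp) hl3 hl1 hl2 hu hv huv
        omega
      · obtain ⟨l, hl1, hl2, hl3⟩ := hHam v hv
        have := upper_three (H := H) (S := L) hl3 hl1 hl2 hu huv
        omega

end Q299.PC
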