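import Pool.Agent.Q299.PC.Prob

set_option linter.unusedSectionVars false

namespace Q299.PC

open Finset Filter Topology

open scoped Classical

open Pool.Agent.W166.Gnp

lemma dg_eq_degree {n : ℕ} (G : SimpleGraph (Fin n)) (v : Fin n) : dg G v = G.degree v := by
  rw [← dg_eq (G := G), ← SimpleGraph.card_neighborFinset_eq_degree]
  congr 1
  ext w
  simp

/-- The property in the theorem. -/
def Good (k : ℕ) {n : ℕ} (G : SimpleGraph (Fin n)) : Prop :=
  fNum k G = minIncident (k - 1) G ∧ fNum k G < ((k * (G.minDegree - 1) : ℕ) : ℕ∞)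

lemma good_of (k n : ℕ) (hk : 2 ≤ k) (hkn : k ≤ n) (p : ℝ) (h0 : 0 ≤ p)
    (G : SimpleGraph (Fin n))
    (hx : 4 * ((k : ℝ) ^ 2 + 2 * k) < p * (n - 1 : ℕ))
    (hpx : 1024 * (k : ℝ) ^ 3 ≤ p * (p * (n - 1 : ℕ)))
    (h1 : ∀ v : Fin n, (1 - 1 / (8 * (k : ℝ))) * (p * (n - 1 : ℕ)) < (dg G v : ℝ))
    (h2 : ∀ v : Fin n, (dg G v : ℝ) < (1 + 1 / (8 * (k : ℝ))) * (p * (n - 1 : ℕ)))
    (h3 : ∀ A B : Finset (Fin n), Disjoint A B → A.card = ⌈(p * (n - 1 : ℕ)) / (16 * (k : ℝ))⌉₊ →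
      B.card = ⌈(p * (n - 1 : ℕ)) / (16 * (k : ℝ))⌉₊ →
      (1 - 1 / 2) * (p * ((⌈(p * (n - 1 : ℕ)) / (16 * (k : ℝ))⌉₊ *
        ⌈(p * (n - 1 : ℕ)) / (16 * (k : ℝ))⌉₊ : ℕ) : ℝ)) < (eb G A B : ℝ)) :
    Good k G := by
  set x : ℝ := p * (n - 1 : ℕ) with hxdef
  set m : ℕ := ⌈x / (16 * (k : ℝ))⌉₊ with hm
  set ε : ℝ := 1 / (8 * (k : ℝ)) with hε
  have hk0 : (2 : ℝ) ≤ (k : ℝ) := by exact_mod_cast hk
  have hkpos : (0 : ℝ) < (k : ℝ) := by linarith
  have hx0 : 0 < x := by nlinarith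
  have hεpos : 0 < ε := by positivity
  have hεk : ε * k = 1 / 8 := by rw [hε]; field_simp
  have hε1 : ε ≤ 1 / 16 := by
    rw [hε]
    apply one_div_le_one_div_of_le (by norm_num)
    linarith
  set d1 : ℕ := ⌈(1 - ε) * x⌉₊ with hd1
  set d2 : ℕ := ⌊(1 + ε) * x⌋₊ with hd2
  have hd1' : (1 - ε) * x ≤ (d1 : ℝ) := Nat.le_ceil _
  have hd2' : (d2 : ℝ) ≤ (1 + ε) * x := Nat.floor_le (by positivity)
  have hm1 : x / (16 * (k : ℝ)) ≤ (m : ℝ) := Nat.le_ceil _
  have hm2 : (m : ℝ) < x / (16 * (k : ℝ)) + 1 := Nat.ceil_lt_add_one (by positivity)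
  have g1 : ∀ v, d1 ≤ dg G v := by
    intro v
    rw [hd1]
    exact Nat.ceil_le.2 (h1 v).le
  have g2 : ∀ v, dg G v ≤ d2 := by
    intro v
    rw [hd2]
    exact Nat.le_floor (h2 v).le
  have hkx : x / (16 * (k : ℝ)) * (16 * k) = x := by field_simp
  have hmk : (m : ℝ) * (16 * k) < x + 16 * k := by
    have := mul_lt_mul_of_pos_right hm2 (by positivity : (0 : ℝ) < 16 * k)
    rw [add_mul, hkx, one_mul] at this
    exact this
  -- main inequality
  have hmain : (k - 1) * d2 + k * k + k * (2 * m + 2 + k) < k * d1 := by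
    have hr : ((k : ℝ) - 1) * d2 + k * k + k * (2 * m + 2 + k) < k * d1 := by
      have e1 : ((k : ℝ) - 1) * d2 ≤ ((k : ℝ) - 1) * ((1 + ε) * x) :=
        mul_le_mul_of_nonneg_left hd2' (by linarith)
      have e2 : (k : ℝ) * ((1 - ε) * x) ≤ k * d1 := mul_le_mul_of_nonneg_left hd1' hkpos.le
      have e3 : (k : ℝ) * (2 * m) < x / 8 + 2 * k := by nlinarith
      have e4 : (k : ℝ) * ((1 - ε) * x) - ((k : ℝ) - 1) * ((1 + ε) * x) =
          x - 2 * (ε * k) * x + ε * x := by ring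
      rw [hεk] at e4
      have e5 : 0 ≤ ε * x := by positivity
      nlinarith
    have hcast : (((k - 1 : ℕ) : ℝ)) = (k : ℝ) - 1 := by
      rw [Nat.cast_sub (by omega)]; simp
    have : (((k - 1) * d2 + k * k + k * (2 * m + 2 + k) : ℕ) : ℝ) < ((k * d1 : ℕ) : ℝ) := by
      push_cast
      rw [hcast]
      exact hr
    exact_mod_cast this
  have hT : ∀ A B : Finset (Fin n), Disjoint A B → m ≤ A.card → m ≤ B.card →
      (k - 1) * d2 < eb G A B := by
    intro A B hAB hA hB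
    obtain ⟨A', hA', hA'c⟩ := exists_subset_card_eq hA
    obtain ⟨B', hB', hB'c⟩ := exists_subset_card_eq hB
    have h4 := h3 A' B' (disjoint_of_subset_left hA' (disjoint_of_subset_right hB' hAB)) hA'c hB'c
    have h5 := eb_mono G hA' hB'
    have h6 : (((k - 1) * d2 : ℕ) : ℝ) < (eb G A' B' : ℝ) := by
      refine lt_of_le_of_lt ?_ h4
      have hcast : (((k - 1 : ℕ) : ℝ)) = (k : ℝ) - 1 := by
        rw [Nat.cast_sub (by omega)]; simp
      push_cast
      rw [hcast]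
      -- (k-1) d2 ≤ (k-1)(1+ε)x ≤ p m^2/2
      have e1 : ((k : ℝ) - 1) * d2 ≤ ((k : ℝ) - 1) * ((1 + ε) * x) :=
        mul_le_mul_of_nonneg_left hd2' (by linarith)
      have e2 : ((k : ℝ) - 1) * ((1 + ε) * x) ≤ 2 * k * x := by
        have : (1 + ε) * x ≤ 2 * x := by nlinarith
        calc ((k : ℝ) - 1) * ((1 + ε) * x) ≤ k * (2 * x) := by
              apply mul_le_mul (by linarith) this (by positivity) hkpos.le
          _ = 2 * k * x := by ring
      have e3 : p * (x / (16 * (k : ℝ)) * (x / (16 * (k : ℝ)))) ≤ p * ((m : ℝ) * m) := by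
        apply mul_le_mul_of_nonneg_left _ h0
        exact mul_le_mul hm1 hm1 (by positivity) (by positivity)
      have e4 : p * (x / (16 * (k : ℝ)) * (x / (16 * (k : ℝ)))) = (p * x) * x / (256 * k ^ 2) := by
        field_simp
        ring
      have e5 : 4 * k * x ≤ (p * x) * x / (256 * k ^ 2) := by
        rw [le_div_iff₀ (by positivity)]
        have : 4 * k * x * (256 * (k : ℝ) ^ 2) = (1024 * (k : ℝ) ^ 3) * x := by ring
        rw [this]
        exact mul_le_mul_of_nonneg_right hpx hx0.le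
      linarith
    have h7 : (k - 1) * d2 < eb G A' B' := by exact_mod_cast h6
    omega
  have hcard : k ≤ Fintype.card (Fin n) := by simpa using hkn
  obtain ⟨r1, r2⟩ := det_main G k m ((k - 1) * d2) d1 d2 hk hcard g1 g2 hT le_rfl hmain
  refine ⟨r1, ?_⟩
  rw [r1]
  refine lt_of_le_of_lt r2 ?_
  have hne : Nonempty (Fin n) := ⟨⟨0, by omega⟩⟩
  obtain ⟨v, hv⟩ := G.exists_minimal_degree_vertex
  have h8 : d1 ≤ G.minDegree := by
    rw [hv, ← dg_eq_degree]; exact g1 v
  have h9 : (k - 1) * d2 < k * (G.minDegree - 1) := by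
    have h10 : k * (d1 - 1) ≤ k * (G.minDegree - 1) := Nat.mul_le_mul_left _ (by omega)
    have h11 : k * (d1 - 1) = k * d1 - k := by rw [Nat.mul_sub, mul_one]
    have h12 : k * 2 ≤ k * k := Nat.mul_le_mul_left _ hk
    omega
  exact_mod_cast h9

lemma prob_good (k n : ℕ) (hk : 2 ≤ k) (hkn : k ≤ n) (p : ℝ) (h0 : 0 ≤ p) (h1 : p ≤ 1)
    (hx : 4 * ((k : ℝ) ^ 2 + 2 * k) < p * (n - 1 : ℕ))
    (hpx : 1024 * (k : ℝ) ^ 3 ≤ p * (p * (n - 1 : ℕ)))
    (hlog : 512 * (k : ℝ) ^ 2 * Real.log n ≤ p * (p * (n - 1 : ℕ))) :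
    1 - 3 / (n : ℝ) ≤ Pr (allE n) p (fun S => Good k (gph S)) := by
  set x : ℝ := p * (n - 1 : ℕ) with hxdef
  set m : ℕ := ⌈x / (16 * (k : ℝ))⌉₊ with hm
  set ε : ℝ := 1 / (8 * (k : ℝ)) with hε
  have hk0 : (2 : ℝ) ≤ (k : ℝ) := by exact_mod_cast hk
  have hkpos : (0 : ℝ) < (k : ℝ) := by linarith
  have hx0 : 0 < x := by nlinarith
  have hεpos : 0 < ε := by positivity
  have hε1 : ε ≤ 1 := by
    rw [hε, div_le_one (by positivity)]; linarith
  have hn0 : (0 : ℝ) < n := by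
    have : 0 < n := by omega
    exact_mod_cast this
  have hlog0 : 0 ≤ Real.log n := Real.log_nonneg (by
    have : 1 ≤ n := by omega
    exact_mod_cast this)
  have hm1 : x / (16 * (k : ℝ)) ≤ (m : ℝ) := Nat.le_ceil _
  have hmpos : 1 ≤ m := by
    have : 0 < m := Nat.ceil_pos.2 (by positivity)
    omega
  have hfail := fail_bound n m h0 h1 hεpos.le hε1
  have hcompl : Pr (allE n) p (fun S => ¬ Good k (gph S)) ≤ 3 / n := by
    refine (Pr_mono h0 h1 ?_).trans (hfail.trans ?_)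
    · intro S _ hS
      by_contra hcon
      push Not at hcon
      obtain ⟨c1, c2, c3⟩ := hcon
      apply hS
      exact good_of k n hk hkn p h0 (gph S) hx hpx c1 c2 (fun A B hAB hA hB =>
        c3 (A, B) ⟨hAB, hA, hB⟩)
    · have hxl : 512 * (k : ℝ) ^ 2 * Real.log n ≤ x := by
        refine hlog.trans ?_
        have : p * x ≤ 1 * x := mul_le_mul_of_nonneg_right h1 hx0.le
        linarith
      have hεx : 2 * Real.log n ≤ ε ^ 2 / 4 * x := by
        have : ε ^ 2 / 4 * x = x / (256 * (k : ℝ) ^ 2) := by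
          rw [hε]; field_simp; ring
        rw [this, le_div_iff₀ (by positivity)]
        linarith
      have hexp : Real.exp (-(2 * Real.log n)) = 1 / (n : ℝ) ^ 2 := by
        rw [Real.exp_neg, two_mul, Real.exp_add, Real.exp_log hn0]
        field_simp
      have t1 : (n : ℝ) * Real.exp (-(ε ^ 2 / 4 * x)) ≤ 1 / n := by
        calc (n : ℝ) * Real.exp (-(ε ^ 2 / 4 * x)) ≤ n * Real.exp (-(2 * Real.log n)) := by
              apply mul_le_mul_of_nonneg_left _ hn0.le
              apply Real.exp_le_exp.2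
              linarith
          _ = 1 / n := by rw [hexp]; field_simp
      have t2 : (n : ℝ) * Real.exp (-(ε ^ 2 / 2 * x)) ≤ 1 / n := by
        refine le_trans ?_ t1
        apply mul_le_mul_of_nonneg_left _ hn0.le
        apply Real.exp_le_exp.2
        have : 0 ≤ ε ^ 2 * x := by positivity
        nlinarith
      have t3 : (n : ℝ) ^ (2 * m) * Real.exp (-((1 / 2 : ℝ) ^ 2 / 2 * (p * ((m * m : ℕ) : ℝ)))) ≤
          1 / n := by
        have e1 : (n : ℝ) ^ (2 * m) = Real.exp (2 * m * Real.log n) := by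
          rw [← Real.exp_log (show (0 : ℝ) < (n : ℝ) ^ (2 * m) by positivity), Real.log_pow]
          push_cast
          ring_nf
        rw [e1, ← Real.exp_add]
        have e2 : (1 : ℝ) / n = Real.exp (-Real.log n) := by
          rw [Real.exp_neg, Real.exp_log hn0]; field_simp
        rw [e2]
        apply Real.exp_le_exp.2
        push_cast
        have hpm : 24 * Real.log n ≤ p * m := by
          have e3 : p * (x / (16 * (k : ℝ))) ≤ p * m := mul_le_mul_of_nonneg_left hm1 h0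
          have e4 : p * (x / (16 * (k : ℝ))) = (p * x) / (16 * k) := by ring
          have e5 : 24 * Real.log n ≤ (p * x) / (16 * k) := by
            rw [le_div_iff₀ (by positivity)]
            have : 24 * Real.log n * (16 * k) ≤ 512 * (k : ℝ) ^ 2 * Real.log n := by
              have h6 : 24 * (16 * (k : ℝ)) ≤ 512 * (k : ℝ) ^ 2 := by nlinarith
              nlinarith
            linarith
          linarith
        have hm1' : (1 : ℝ) ≤ m := by exact_mod_cast hmpos
        have e6 : 24 * Real.log n * m ≤ p * m * m :=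
          mul_le_mul_of_nonneg_right hpm (by positivity)
        have e7 : Real.log n ≤ Real.log n * m := le_mul_of_one_le_right hlog0 hm1'
        nlinarith
      have : (3 : ℝ) / n = 1 / n + 1 / n + 1 / n := by ring
      rw [this]
      linarith
  have := Pr_not (E := allE n) (p := p) (fun S => Good k (gph S))
  rw [this] at hcompl
  linarith

lemma gnpProb_eq (n : ℕ) (p : ℝ) (A : SimpleGraph (Fin n) → Prop) :
    gnpProb n p A = Pr (allE n) p (fun S => A (gph S)) := by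
  unfold gnpProb gph
  rw [← sum_eq_Pr]

/-- eventual parameter inequalities -/
lemma eventually_params (k : ℕ) (hk : 2 ≤ k) (p : ℕ → ℝ)
    (hp : ∀ᶠ n : ℕ in atTop, 32 * (k : ℝ) * Real.sqrt (Real.log n / n) ≤ p n)
    (hp1 : ∀ n, p n ≤ 1) :
    ∀ᶠ n : ℕ in atTop, k ≤ n ∧ 0 ≤ p n ∧ 4 * ((k : ℝ) ^ 2 + 2 * k) < p n * (n - 1 : ℕ) ∧
      1024 * (k : ℝ) ^ 3 ≤ p n * (p n * (n - 1 : ℕ)) ∧
      512 * (k : ℝ) ^ 2 * Real.log n ≤ p n * (p n * (n - 1 : ℕ)) := by
  have hk0 : (2 : ℝ) ≤ (k : ℝ) := by exact_mod_cast hk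
  have hlogt : Tendsto (fun n : ℕ => Real.log n) atTop atTop :=
    Real.tendsto_log_atTop.comp tendsto_natCast_atTop_atTop
  filter_upwards [hp, eventually_ge_atTop k, eventually_ge_atTop 2,
    hlogt.eventually_ge_atTop (2 * (k : ℝ)), hlogt.eventually_gt_atTop 1] with n h1 h2 h3 h4 h5
  have hn0 : (0 : ℝ) < n := by
    have : 0 < n := by omega
    exact_mod_cast this
  have hn2 : (2 : ℝ) ≤ n := by exact_mod_cast h3
  have hcast : ((n - 1 : ℕ) : ℝ) = (n : ℝ) - 1 := by
    rw [Nat.cast_sub (by omega)]; simp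
  have hs0 : 0 ≤ Real.sqrt (Real.log n / n) := Real.sqrt_nonneg _
  have hp0 : 0 ≤ p n := le_trans (by positivity) h1
  have hsq : 1024 * (k : ℝ) ^ 2 * (Real.log n / n) ≤ p n * p n := by
    have h6 : (32 * (k : ℝ) * Real.sqrt (Real.log n / n)) *
        (32 * (k : ℝ) * Real.sqrt (Real.log n / n)) ≤ p n * p n :=
      mul_le_mul h1 h1 (by positivity) hp0
    have h7 : Real.sqrt (Real.log n / n) * Real.sqrt (Real.log n / n) = Real.log n / n :=
      Real.mul_self_sqrt (by positivity)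
    calc 1024 * (k : ℝ) ^ 2 * (Real.log n / n)
        = 1024 * (k : ℝ) ^ 2 * (Real.sqrt (Real.log n / n) * Real.sqrt (Real.log n / n)) := by
          rw [h7]
      _ = (32 * (k : ℝ) * Real.sqrt (Real.log n / n)) *
        (32 * (k : ℝ) * Real.sqrt (Real.log n / n)) := by ring
      _ ≤ _ := h6
  have hmain : 512 * (k : ℝ) ^ 2 * Real.log n ≤ p n * (p n * (n - 1 : ℕ)) := by
    rw [hcast]
    have h8 : 1024 * (k : ℝ) ^ 2 * (Real.log n / n) * (n - 1) ≤ p n * p n * (n - 1) :=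
      mul_le_mul_of_nonneg_right hsq (by linarith)
    have h9 : 512 * (k : ℝ) ^ 2 * Real.log n ≤ 1024 * (k : ℝ) ^ 2 * (Real.log n / n) * (n - 1) := by
      have h10 : 1024 * (k : ℝ) ^ 2 * (Real.log n / n) * (n - 1) =
          512 * (k : ℝ) ^ 2 * Real.log n * (2 * (n - 1) / n) := by field_simp; ring
      rw [h10]
      apply le_mul_of_one_le_right (by positivity)
      rw [le_div_iff₀ hn0]
      linarith
    linarith
  have hpx : 1024 * (k : ℝ) ^ 3 ≤ p n * (p n * (n - 1 : ℕ)) := by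
    refine le_trans ?_ hmain
    have : 1024 * (k : ℝ) ^ 3 = 512 * (k : ℝ) ^ 2 * (2 * k) := by ring
    rw [this]
    exact mul_le_mul_of_nonneg_left h4 (by positivity)
  refine ⟨h2, hp0, ?_, hpx, hmain⟩
  have hx0 : 0 ≤ p n * ((n - 1 : ℕ) : ℝ) := mul_nonneg hp0 (Nat.cast_nonneg _)
  have h6 : p n * (p n * (n - 1 : ℕ)) ≤ 1 * (p n * (n - 1 : ℕ)) :=
    mul_le_mul_of_nonneg_right (hp1 n) hx0
  have h7 : 4 * ((k : ℝ) ^ 2 + 2 * k) < 1024 * (k : ℝ) ^ 3 := by
    have : (k : ℝ) ^ 3 = (k : ℝ) ^ 2 * k := by ring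
    nlinarith [sq_nonneg (k : ℝ)]
  linarith

theorem tendsto_good (k : ℕ) (hk : 2 ≤ k) (p : ℕ → ℝ)
    (hp : ∀ᶠ n : ℕ in atTop, 32 * (k : ℝ) * Real.sqrt (Real.log n / n) ≤ p n)
    (hp1 : ∀ n, p n ≤ 1) :
    Tendsto (fun n => gnpProb n (p n) (fun G => Good k G)) atTop (𝓝 1) := by
  have h3n : Tendsto (fun n : ℕ => 1 - 3 / (n : ℝ)) atTop (𝓝 1) := by
    have := (tendsto_const_div_atTop_nhds_zero_nat (3 : ℝ)).const_sub 1
    simpa using this
  refine tendsto_of_tendsto_of_tendsto_of_le_of_le' h3n tendsto_const_nhds ?_ ?_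
  · filter_upwards [eventually_params k hk p hp hp1] with n ⟨h1, h2, h3, h4, h5⟩
    rw [gnpProb_eq]
    exact prob_good k n hk h1 (p n) h2 (hp1 n) h3 h4 h5
  · filter_upwards [eventually_params k hk p hp hp1] with n ⟨h1, h2, h3, h4, h5⟩
    rw [gnpProb_eq]
    exact Pr_le_one h2 (hp1 n) _

theorem tendsto_identity (k : ℕ) (hk : 2 ≤ k) (p : ℕ → ℝ)
    (hp : ∀ᶠ n : ℕ in atTop, 32 * (k : ℝ) * Real.sqrt (Real.log n / n) ≤ p n)
    (hp1 : ∀ n, p n ≤ 1) :
    Tendsto (fun n => gnpProb n (p n) (fun G => fNum k G = ((k * (G.minDegree - 1) : ℕ) : ℕ∞)))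
      atTop (𝓝 0) := by
  have h1 := tendsto_good k hk p hp hp1
  have h2 : Tendsto (fun n => 1 - gnpProb n (p n) (fun G => Good k G)) atTop (𝓝 0) := by
    have := h1.const_sub 1
    simpa using this
  refine tendsto_of_tendsto_of_tendsto_of_le_of_le' tendsto_const_nhds h2 ?_ ?_
  · filter_upwards [eventually_params k hk p hp hp1] with n ⟨_, h0, _⟩
    rw [gnpProb_eq]
    exact Pr_nonneg h0 (hp1 n) _
  · filter_upwards [eventually_params k hk p hp hp1] with n ⟨_, h0, _⟩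
    rw [gnpProb_eq, gnpProb_eq, ← Pr_not]
    apply Pr_mono h0 (hp1 n)
    intro S _ hS hgood
    exact (lt_irrefl _ (hS ▸ hgood.2))

/-- constant `p` is allowed -/
lemma eventually_const (k : ℕ) {c : ℝ} (hc : 0 < c) :
    ∀ᶠ n : ℕ in atTop, 32 * (k : ℝ) * Real.sqrt (Real.log n / n) ≤ c := by
  have h1 : Tendsto (fun n : ℕ => Real.log n / n) atTop (𝓝 0) := by
    have := Real.isLittleO_log_id_atTop.tendsto_div_nhds_zero
    exact this.comp tendsto_natCast_atTop_atTop
  have h2 : Tendsto (fun n : ℕ => 32 * (k : ℝ) * Real.sqrt (Real.log n / n)) atTop (𝓝 0) := by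
    have := (Real.continuous_sqrt.tendsto 0).comp h1
    have := this.const_mul (32 * (k : ℝ))
    simpa using this
  exact h2.eventually_le_const hc

/-- constant `p` is above the Hamiltonicity threshold -/
lemma admissible_const {c : ℝ} (hc : 0 < c) :
    Tendsto (fun n : ℕ => (n : ℝ) * c - Real.log n - Real.log (Real.log n)) atTop atTop := by
  have h1 : Tendsto (fun n : ℕ => (n : ℝ) * (c / 2)) atTop atTop :=
    tendsto_natCast_atTop_atTop.atTop_mul_const (by positivity)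
  refine tendsto_atTop_mono' _ ?_ h1
  have h2 : ∀ᶠ n : ℕ in atTop, Real.log n ≤ c / 4 * n := by
    have := (Real.isLittleO_log_id_atTop.comp_tendsto tendsto_natCast_atTop_atTop).def
      (c := c / 4) (by positivity)
    filter_upwards [this, eventually_ge_atTop 1] with n hn hn1
    have hn1' : (1 : ℝ) ≤ n := by exact_mod_cast hn1
    simp only [Function.comp, id, Real.norm_eq_abs] at hn
    rw [abs_of_nonneg (Real.log_nonneg hn1'), abs_of_nonneg (by linarith)] at hn
    exact hn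
  filter_upwards [h2, eventually_ge_atTop 3] with n hn hn3
  have hn3' : (3 : ℝ) ≤ n := by exact_mod_cast hn3
  have h4 : 0 < Real.log n := Real.log_pos (by linarith)
  have h5 : Real.log (Real.log n) ≤ Real.log n := by
    have := Real.log_le_sub_one_of_pos h4
    linarith
  linarith

end Q299.PC
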