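import Pool.Agent.Q299.PC.DetMain
import Pool.Agent.W166.Gnp.Tail
import Pool.Agent.W166.Gnp.Transfer

set_option linter.unusedSectionVars false

namespace Q299.PC

open Finset

open scoped Classical

open Pool.Agent.W166.Gnp

section Tails

variable {α : Type} [DecidableEq α]

/-- upper tail for the number of elements of a given subset -/
theorem card_upper {E Z : Finset α} (hZ : Z ⊆ E) {p : ℝ} (h0 : 0 ≤ p) (h1 : p ≤ 1) {ε : ℝ}
    (he : 0 ≤ ε) (he1 : ε ≤ 1) :
    Pr E p (fun S => (1 + ε) * (p * Z.card) ≤ ((S ∩ Z).card : ℝ)) ≤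
      Real.exp (-(ε ^ 2 / 4 * (p * Z.card))) := by
  have hx : Ex E p (fun S => Real.exp (ε / 2) ^ (S ∩ Z).card) =
      (p * Real.exp (ε / 2) + (1 - p)) ^ Z.card := by
    rw [Ex_marg (E1 := Z) hZ]
    · unfold Ex
      rw [← Finset.sum_pow_mul_eq_add_pow]
      apply sum_congr rfl
      intro S hS
      rw [mem_powerset] at hS
      beta_reduce
      rw [inter_eq_left.mpr hS, mul_pow]
      ring
    · intro S _
      rw [inter_assoc, inter_self]
  have hp : 0 ≤ p * (Z.card : ℝ) := mul_nonneg h0 (Nat.cast_nonneg _)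
  calc Pr E p (fun S => (1 + ε) * (p * Z.card) ≤ ((S ∩ Z).card : ℝ))
      ≤ Ex E p (fun S => Real.exp (-(ε / 2 * ((1 + ε) * (p * Z.card)))) *
          Real.exp (ε / 2) ^ (S ∩ Z).card) := by
        apply Pr_le_Ex h0 h1
        · intro S _; positivity
        · intro S _ hS
          rw [← Real.exp_nat_mul, ← Real.exp_add]
          apply Real.one_le_exp
          nlinarith
    _ = Real.exp (-(ε / 2 * ((1 + ε) * (p * Z.card)))) *
          (p * Real.exp (ε / 2) + (1 - p)) ^ Z.card := by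
        rw [Ex_smul, hx]
    _ ≤ Real.exp (-(ε / 2 * ((1 + ε) * (p * Z.card)))) *
          Real.exp (p * (ε / 2 + ε ^ 2 / 4)) ^ Z.card := by
        apply mul_le_mul_of_nonneg_left _ (Real.exp_pos _).le
        apply pow_le_pow_left₀
        · have := Real.exp_pos (ε / 2)
          have := mul_nonneg h0 this.le
          linarith
        · have h2 : Real.exp (ε / 2) ≤ 1 + ε / 2 + (ε / 2) ^ 2 := by
            have h3 := Real.abs_exp_sub_one_sub_id_le (x := ε / 2) (by
              rw [abs_of_nonneg (by linarith)]; linarith)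
            have h4 := (abs_le.1 h3).2
            linarith
          have h8 := Real.add_one_le_exp (p * (ε / 2 + ε ^ 2 / 4))
          nlinarith
    _ = Real.exp (-(ε ^ 2 / 4 * (p * Z.card))) := by
        rw [← Real.exp_nat_mul, ← Real.exp_add]
        congr 1
        ring

end Tails

variable {n : ℕ}

/-- graph of an edge set -/
noncomputable def gph (S : Finset (Sym2 (Fin n))) : SimpleGraph (Fin n) :=
  SimpleGraph.fromEdgeSet (S : Set (Sym2 (Fin n)))

/-- pairs at `v` -/
noncomputable def star (v : Fin n) : Finset (Sym2 (Fin n)) := (univ.erase v).image (fun w => s(v, w))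

lemma star_card (v : Fin n) : (star v).card = n - 1 := by
  unfold star
  rw [card_image_of_injective, card_erase_of_mem (mem_univ _), card_univ, Fintype.card_fin]
  intro a b hab
  rcases Sym2.eq_iff.1 hab with ⟨_, h⟩ | ⟨h1, h2⟩
  · exact h
  · rw [← h1, h2]

lemma star_sub (v : Fin n) : star v ⊆ allE n := by
  intro e he
  unfold star at he
  obtain ⟨w, hw, rfl⟩ := mem_image.1 he
  rw [mem_allE]
  exact (ne_of_mem_erase hw).symm

lemma dg_gph (S : Finset (Sym2 (Fin n))) (v : Fin n) : dg (gph S) v = (S ∩ star v).card := by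
  rw [← dg_eq (G := gph S)]
  apply card_bij (fun w _ => s(v, w))
  · intro w hw
    simp only [gph, mem_filter, mem_univ, true_and, SimpleGraph.fromEdgeSet_adj, mem_coe] at hw
    simp only [mem_inter, star, mem_image, mem_erase, mem_univ, and_true]
    exact ⟨hw.1, w, hw.2.symm, rfl⟩
  · intro a _ b _ hab
    rcases Sym2.eq_iff.1 hab with ⟨_, h⟩ | ⟨h1, h2⟩
    · exact h
    · rw [← h1, h2]
  · intro e he
    simp only [mem_inter, star, mem_image, mem_erase, mem_univ, and_true] at he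
    obtain ⟨he, w, hw, rfl⟩ := he
    refine ⟨w, ?_, rfl⟩
    simp only [gph, mem_filter, mem_univ, true_and, SimpleGraph.fromEdgeSet_adj, mem_coe]
    exact ⟨he, hw.symm⟩

/-- pairs between two sets -/
noncomputable def bet (A B : Finset (Fin n)) : Finset (Sym2 (Fin n)) :=
  (A ×ˢ B).image (fun x => s(x.1, x.2))

lemma bet_inj {A B : Finset (Fin n)} (h : Disjoint A B) :
    Set.InjOn (fun x : Fin n × Fin n => s(x.1, x.2)) ((A ×ˢ B : Finset (Fin n × Fin n)) : Set _) := by
  intro x hx y hy hxy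
  simp only [coe_product, Set.mem_prod, mem_coe] at hx hy
  rcases Sym2.eq_iff.1 hxy with ⟨h1, h2⟩ | ⟨h1, h2⟩
  · exact Prod.ext h1 h2
  · exfalso
    rw [h1] at hx
    exact (Finset.disjoint_left.1 h) hx.1 hy.2

lemma bet_card {A B : Finset (Fin n)} (h : Disjoint A B) : (bet A B).card = A.card * B.card := by
  unfold bet
  rw [card_image_of_injOn (bet_inj h), card_product]

lemma bet_sub {A B : Finset (Fin n)} (h : Disjoint A B) : bet A B ⊆ allE n := by
  intro e he
  obtain ⟨x, hx, rfl⟩ := mem_image.1 he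
  rw [mem_allE]
  intro heq
  simp only [mem_product] at hx
  rw [heq] at hx
  exact (Finset.disjoint_left.1 h) hx.1 hx.2

lemma eb_gph (S : Finset (Sym2 (Fin n))) {A B : Finset (Fin n)} (h : Disjoint A B) :
    eb (gph S) A B = (S ∩ bet A B).card := by
  unfold eb
  apply card_bij (fun x _ => s(x.1, x.2))
  · intro x hx
    simp only [gph, mem_filter, SimpleGraph.fromEdgeSet_adj, mem_coe] at hx
    exact mem_inter.2 ⟨hx.2.1, mem_image.2 ⟨x, hx.1, rfl⟩⟩
  · intro x hx y hy hxy
    exact bet_inj h (by simpa using (mem_filter.1 hx).1) (by simpa using (mem_filter.1 hy).1) hxy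
  · intro e he
    obtain ⟨h1, h2⟩ := mem_inter.1 he
    obtain ⟨x, hx, rfl⟩ := mem_image.1 h2
    refine ⟨x, ?_, rfl⟩
    simp only [gph, mem_filter, SimpleGraph.fromEdgeSet_adj, mem_coe]
    refine ⟨hx, h1, ?_⟩
    intro heq
    simp only [mem_product] at hx
    rw [heq] at hx
    exact (Finset.disjoint_left.1 h) hx.1 hx.2

lemma eb_mono (G : SimpleGraph (Fin n)) {A B A' B' : Finset (Fin n)} (hA : A' ⊆ A) (hB : B' ⊆ B) :
    eb G A' B' ≤ eb G A B := by
  unfold eb
  exact card_le_card (filter_subset_filter _ (product_subset_product hA hB))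

/-- failure probability for the pseudo-random properties -/
theorem fail_bound (n m : ℕ) {p : ℝ} (h0 : 0 ≤ p) (h1 : p ≤ 1) {ε : ℝ} (he : 0 ≤ ε) (he1 : ε ≤ 1) :
    Pr (allE n) p (fun S =>
      (∃ v : Fin n, (dg (gph S) v : ℝ) ≤ (1 - ε) * (p * (n - 1 : ℕ))) ∨
      (∃ v : Fin n, (1 + ε) * (p * (n - 1 : ℕ)) ≤ (dg (gph S) v : ℝ)) ∨
      (∃ x : Finset (Fin n) × Finset (Fin n), (Disjoint x.1 x.2 ∧ x.1.card = m ∧ x.2.card = m) ∧
        (eb (gph S) x.1 x.2 : ℝ) ≤ (1 - 1 / 2) * (p * ((m * m : ℕ) : ℝ)))) ≤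
      n * Real.exp (-(ε ^ 2 / 2 * (p * (n - 1 : ℕ)))) +
      n * Real.exp (-(ε ^ 2 / 4 * (p * (n - 1 : ℕ)))) +
      (n : ℝ) ^ (2 * m) * Real.exp (-((1 / 2 : ℝ) ^ 2 / 2 * (p * ((m * m : ℕ) : ℝ)))) := by
  have b1 : Pr (allE n) p (fun S => ∃ v : Fin n,
      (dg (gph S) v : ℝ) ≤ (1 - ε) * (p * (n - 1 : ℕ))) ≤
      n * Real.exp (-(ε ^ 2 / 2 * (p * (n - 1 : ℕ)))) := by
    have h2 := Pr_exists_le (E := allE n) h0 h1 (univ : Finset (Fin n))
      (fun v S => (dg (gph S) v : ℝ) ≤ (1 - ε) * (p * (n - 1 : ℕ)))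
    simp only [mem_univ, true_and] at h2
    refine h2.trans ?_
    calc ∑ v : Fin n, Pr (allE n) p (fun S => (dg (gph S) v : ℝ) ≤ (1 - ε) * (p * (n - 1 : ℕ)))
        ≤ ∑ _v : Fin n, Real.exp (-(ε ^ 2 / 2 * (p * (n - 1 : ℕ)))) := by
          apply sum_le_sum
          intro v _
          have := card_lower (star_sub v) h0 h1 he he1
          rw [star_card] at this
          simp only [dg_gph]
          exact this
      _ = _ := by rw [sum_const, card_univ, Fintype.card_fin, nsmul_eq_mul]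
  have b2 : Pr (allE n) p (fun S => ∃ v : Fin n,
      (1 + ε) * (p * (n - 1 : ℕ)) ≤ (dg (gph S) v : ℝ)) ≤
      n * Real.exp (-(ε ^ 2 / 4 * (p * (n - 1 : ℕ)))) := by
    have h2 := Pr_exists_le (E := allE n) h0 h1 (univ : Finset (Fin n))
      (fun v S => (1 + ε) * (p * (n - 1 : ℕ)) ≤ (dg (gph S) v : ℝ))
    simp only [mem_univ, true_and] at h2
    refine h2.trans ?_
    calc ∑ v : Fin n, Pr (allE n) p (fun S => (1 + ε) * (p * (n - 1 : ℕ)) ≤ (dg (gph S) v : ℝ))
        ≤ ∑ _v : Fin n, Real.exp (-(ε ^ 2 / 4 * (p * (n - 1 : ℕ)))) := by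
          apply sum_le_sum
          intro v _
          have := card_upper (star_sub v) h0 h1 he he1
          rw [star_card] at this
          simp only [dg_gph]
          exact this
      _ = _ := by rw [sum_const, card_univ, Fintype.card_fin, nsmul_eq_mul]
  have b3 : Pr (allE n) p (fun S => ∃ x : Finset (Fin n) × Finset (Fin n),
      (Disjoint x.1 x.2 ∧ x.1.card = m ∧ x.2.card = m) ∧
        (eb (gph S) x.1 x.2 : ℝ) ≤ (1 - 1 / 2) * (p * ((m * m : ℕ) : ℝ))) ≤
      (n : ℝ) ^ (2 * m) * Real.exp (-((1 / 2 : ℝ) ^ 2 / 2 * (p * ((m * m : ℕ) : ℝ)))) := by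
    set T := ((powersetCard m (univ : Finset (Fin n))) ×ˢ
      (powersetCard m (univ : Finset (Fin n)))).filter (fun x => Disjoint x.1 x.2) with hT
    have h2 := Pr_exists_le (E := allE n) h0 h1 T
      (fun x S => (eb (gph S) x.1 x.2 : ℝ) ≤ (1 - 1 / 2) * (p * ((m * m : ℕ) : ℝ)))
    refine (Pr_mono h0 h1 ?_).trans (h2.trans ?_)
    · rintro S _ ⟨x, ⟨hx1, hx2, hx3⟩, hx4⟩
      refine ⟨x, ?_, hx4⟩
      simp [hT, hx1, hx2, hx3]
    · calc ∑ x ∈ T, Pr (allE n) p (fun S => (eb (gph S) x.1 x.2 : ℝ) ≤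
            (1 - 1 / 2) * (p * ((m * m : ℕ) : ℝ)))
          ≤ ∑ _x ∈ T, Real.exp (-((1 / 2 : ℝ) ^ 2 / 2 * (p * ((m * m : ℕ) : ℝ)))) := by
            apply sum_le_sum
            intro x hx
            simp only [hT, mem_filter, mem_product, mem_powersetCard, subset_univ, true_and] at hx
            obtain ⟨⟨hx1, hx2⟩, hx3⟩ := hx
            have := card_lower (bet_sub hx3) h0 h1 (ε := 1 / 2) (by norm_num) (by norm_num)
            rw [bet_card hx3, hx1, hx2] at this
            simp only [eb_gph _ hx3]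
            exact this
        _ = T.card * Real.exp (-((1 / 2 : ℝ) ^ 2 / 2 * (p * ((m * m : ℕ) : ℝ)))) := by
            rw [sum_const, nsmul_eq_mul]
        _ ≤ _ := by
            apply mul_le_mul_of_nonneg_right _ (Real.exp_pos _).le
            have h3 : T.card ≤ n ^ (2 * m) := by
              calc T.card ≤ ((powersetCard m (univ : Finset (Fin n))) ×ˢ
                    (powersetCard m (univ : Finset (Fin n)))).card := card_filter_le _ _
                _ = n.choose m * n.choose m := by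
                    rw [card_product, card_powersetCard, card_univ, Fintype.card_fin]
                _ ≤ n ^ m * n ^ m := Nat.mul_le_mul (Nat.choose_le_pow _ _) (Nat.choose_le_pow _ _)
                _ = n ^ (2 * m) := by rw [← pow_add]; congr 1; ring
            exact_mod_cast h3
  calc _ ≤ Pr (allE n) p (fun S => ∃ v : Fin n, (dg (gph S) v : ℝ) ≤ (1 - ε) * (p * (n - 1 : ℕ))) +
        Pr (allE n) p (fun S => (∃ v : Fin n, (1 + ε) * (p * (n - 1 : ℕ)) ≤ (dg (gph S) v : ℝ)) ∨
      (∃ x : Finset (Fin n) × Finset (Fin n), (Disjoint x.1 x.2 ∧ x.1.card = m ∧ x.2.card = m) ∧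
        (eb (gph S) x.1 x.2 : ℝ) ≤ (1 - 1 / 2) * (p * ((m * m : ℕ) : ℝ)))) := Pr_or_le h0 h1 _ _
    _ ≤ Pr (allE n) p (fun S => ∃ v : Fin n, (dg (gph S) v : ℝ) ≤ (1 - ε) * (p * (n - 1 : ℕ))) +
        (Pr (allE n) p (fun S => ∃ v : Fin n, (1 + ε) * (p * (n - 1 : ℕ)) ≤ (dg (gph S) v : ℝ)) +
        Pr (allE n) p (fun S => ∃ x : Finset (Fin n) × Finset (Fin n),
          (Disjoint x.1 x.2 ∧ x.1.card = m ∧ x.2.card = m) ∧
        (eb (gph S) x.1 x.2 : ℝ) ≤ (1 - 1 / 2) * (p * ((m * m : ℕ) : ℝ)))) :=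
        add_le_add le_rfl (Pr_or_le h0 h1 _ _)
    _ ≤ _ := by linarith

end Q299.PC
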